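import Pool.Agent.Lib.H91PerList

/-! The freely indecomposable virtually free groups that occur as fundamental groups of
three-dimensional Poincare complexes. -/

namespace Pool.Agent.Lib.H42VF
open Pool.Agent.Lib.H91Per

/-- Relators `b_j^(m j)` and `a b_j a⁻¹ b_j` in the free product of `V` with the free group on
`b_1, …, b_k`. -/
def starRels {V : Type} [Group V] (a : V) {k : ℕ} (m : Fin k → ℕ) :
    Set (Monoid.Coprod V (FreeGroup (Fin k))) :=
  {w | ∃ j, w = Monoid.Coprod.inr (FreeGroup.of j) ^ m j ∨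
    w = Monoid.Coprod.inl a * Monoid.Coprod.inr (FreeGroup.of j) * (Monoid.Coprod.inl a)⁻¹ *
      Monoid.Coprod.inr (FreeGroup.of j)}

/-- `H` is `Z`, `Z × Z/2`, or a group `V` of the period four list with `k ≥ 0` dihedral groups of
orders `2 m_j`, `m_j` odd, amalgamated along an element `a` with `a^2 = 1`. -/
def IsFactor (H : Type) [Group H] : Prop :=
  Nonempty (H ≃* Multiplicative ℤ) ∨
  Nonempty (H ≃* Multiplicative (ZMod 2) × Multiplicative ℤ) ∨
  ∃ (V : Type) (_ : Group V) (a : V) (k : ℕ) (m : Fin k → ℕ),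
    InPeriodFourList V ∧ a ^ 2 = 1 ∧ (∀ j, Odd (m j)) ∧
    Nonempty (H ≃* Monoid.Coprod V (FreeGroup (Fin k)) ⧸ Subgroup.normalClosure (starRels a m))

end Pool.Agent.Lib.H42VF
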