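import Pool.Agent.Lib.H91PerAll
import Pool.Agent.Lib.H42VFDefs

/-! Balanced presentations pass to free products and to amalgams with dihedral groups. -/

namespace Pool.Agent.Lib.H42VF
open Pool.Agent.Lib.H91Per Pool.Agent.Lib.H91PerQB

theorem balanced_of_fintype {G : Type} [Group G] {ι : Type} [Fintype ι] (R : ι → FreeGroup ι)
    (e : PresentedGroup (Set.range R) ≃* G) : Balanced G := by
  let q := Fintype.equivFin ι
  refine ⟨Fintype.card ι, fun j => FreeGroup.freeGroupCongr q (R (q.symm j)), ?_⟩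
  have h : (Set.range fun j => FreeGroup.freeGroupCongr q (R (q.symm j))) =
      FreeGroup.freeGroupCongr q '' Set.range R := by
    ext w
    constructor
    · rintro ⟨j, rfl⟩
      exact ⟨_, ⟨q.symm j, rfl⟩, rfl⟩
    · rintro ⟨_, ⟨i, rfl⟩, rfl⟩
      exact ⟨q i, by simp⟩
  rw [h]
  exact ⟨(PresentedGroup.equivPresentedGroup _ q).symm.trans e⟩

theorem lift_map {α β K : Type} [Group K] (f : β → K) (g : α → β) (w : FreeGroup α) :
    FreeGroup.lift f (FreeGroup.map g w) = FreeGroup.lift (fun a => f (g a)) w := by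
  have : (FreeGroup.lift f).comp (FreeGroup.map g) = FreeGroup.lift fun a => f (g a) := by
    ext a; simp
  exact DFunLike.congr_fun this w

theorem lift_hom {α K : Type} [Group K] {R : Set (FreeGroup α)} (φ : PresentedGroup R →* K)
    (w : FreeGroup α) :
    FreeGroup.lift (fun a => φ (PresentedGroup.of a)) w = φ (PresentedGroup.mk R w) := by
  have : FreeGroup.lift (fun a => φ (PresentedGroup.of a)) = φ.comp (PresentedGroup.mk R) := by
    ext a; simp [PresentedGroup.of]
  exact DFunLike.congr_fun this w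

theorem balanced_coprodI {n : ℕ} (H : Fin n → Type) [∀ i, Group (H i)]
    (h : ∀ i, Balanced (H i)) : Balanced (Monoid.CoprodI H) := by
  choose k R e using h
  replace e := fun i => (e i).some
  let R' : (Σ i, Fin (k i)) → FreeGroup (Σ i, Fin (k i)) :=
    fun x => FreeGroup.map (Sigma.mk x.1) (R x.1 x.2)
  let φ : PresentedGroup (Set.range R') →* Monoid.CoprodI H :=
    PresentedGroup.toGroup (f := fun x => Monoid.CoprodI.of (e x.1 (PresentedGroup.of x.2))) (by
      rintro _ ⟨⟨i, j⟩, rfl⟩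
      simp only [R']
      rw [lift_map]
      have := lift_hom ((Monoid.CoprodI.of (M := H) (i := i)).comp (e i).toMonoidHom) (R i j)
      rw [PresentedGroup.one_of_mem (Set.mem_range_self j), map_one] at this
      exact this)
  let ψ : ∀ i, PresentedGroup (Set.range (R i)) →* PresentedGroup (Set.range R') := fun i =>
    PresentedGroup.toGroup (f := fun j => PresentedGroup.of ⟨i, j⟩) (by
      rintro _ ⟨j, rfl⟩
      exact (lift_map _ _ _).symm.trans (lift_of (Set.range R') _ ⟨⟨i, j⟩, rfl⟩))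
  refine balanced_of_fintype R' (MonoidHom.toMulEquiv φ
    (Monoid.CoprodI.lift fun i => (ψ i).comp (e i).symm.toMonoidHom) ?_ ?_)
  · refine PresentedGroup.ext ?_
    rintro ⟨i, j⟩
    simp [φ, ψ]
  · refine Monoid.CoprodI.ext_hom _ _ fun i => ?_
    have : φ.comp (ψ i) = (Monoid.CoprodI.of (M := H) (i := i)).comp (e i).toMonoidHom := by
      refine PresentedGroup.ext fun j => ?_
      simp [φ, ψ]
    ext x
    have h2 := DFunLike.congr_fun this ((e i).symm x)
    simpa using h2

theorem core {K : Type} [Group K] {a b : K} {s : ℕ} (ha : a ^ 2 = 1)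
    (h : a * b ^ s * a⁻¹ = b ^ (s + 1)) : b ^ (2 * s + 1) = 1 ∧ a * b * a⁻¹ * b = 1 := by
  have h1 : (a * b * a⁻¹) ^ s = b ^ (s + 1) := by rw [conj_pow, h]
  have h2 : (a * b * a⁻¹) ^ (s + 1) = b ^ s := by
    rw [conj_pow, ← h]
    calc a * (a * b ^ s * a⁻¹) * a⁻¹ = a ^ 2 * b ^ s * (a ^ 2)⁻¹ := by
          simp only [pow_two, mul_inv_rev, mul_assoc]
      _ = b ^ s := by rw [ha]; simp
  have h3 : a * b * a⁻¹ * b = 1 := by
    rw [pow_succ', h1, pow_succ', ← mul_assoc] at h2
    exact mul_eq_right.1 h2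
  refine ⟨?_, h3⟩
  rw [eq_inv_of_mul_eq_one_left h3] at h1
  calc b ^ (2 * s + 1) = b ^ s * b ^ (s + 1) := by rw [← pow_add]; congr 1; ring
    _ = 1 := by rw [← h1, inv_pow, mul_inv_cancel]

theorem core' {K : Type} [Group K] {a b : K} {s : ℕ} (h1 : b ^ (2 * s + 1) = 1)
    (h2 : a * b * a⁻¹ * b = 1) : a * b ^ s * a⁻¹ * (b ^ (s + 1))⁻¹ = 1 := by
  rw [← conj_pow, eq_inv_of_mul_eq_one_left h2, inv_pow, ← mul_inv_rev, ← pow_add, inv_eq_one,
    ← h1]
  congr 1; ring

theorem balanced_star {V : Type} [Group V] (hV : Balanced V) (a : V) (ha : a ^ 2 = 1) {k : ℕ}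
    (m : Fin k → ℕ) (hm : ∀ j, Odd (m j)) :
    Balanced (Monoid.Coprod V (FreeGroup (Fin k)) ⧸ Subgroup.normalClosure (starRels a m)) := by
  obtain ⟨g, R, ⟨e⟩⟩ := hV
  choose s hs using hm
  obtain ⟨w, hw⟩ := PresentedGroup.mk_surjective (Set.range R) (e.symm a)
  let R' : Fin g ⊕ Fin k → FreeGroup (Fin g ⊕ Fin k) := Sum.elim
    (fun i => FreeGroup.map Sum.inl (R i))
    (fun j => FreeGroup.map Sum.inl w * FreeGroup.of (Sum.inr j) ^ s j *
      (FreeGroup.map Sum.inl w)⁻¹ * (FreeGroup.of (Sum.inr j) ^ (s j + 1))⁻¹)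
  let π := QuotientGroup.mk' (Subgroup.normalClosure (starRels a m))
  have hπ : ∀ x ∈ starRels a m, π x = 1 := fun x hx =>
    (QuotientGroup.eq_one_iff x).2 (Subgroup.subset_normalClosure hx)
  let ιV := (π.comp Monoid.Coprod.inl).comp e.toMonoidHom
  let φ : PresentedGroup (Set.range R') →* _ :=
    PresentedGroup.toGroup (f := Sum.elim (fun i => ιV (PresentedGroup.of i))
      (fun j => π (Monoid.Coprod.inr (FreeGroup.of j)))) (by
      rintro _ ⟨i | j, rfl⟩
      · simp only [R', Sum.elim_inl]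
        rw [lift_map]
        have := lift_hom ιV (R i)
        rw [PresentedGroup.one_of_mem (Set.mem_range_self i), map_one] at this
        exact this
      · simp only [R', Sum.elim_inr, map_mul, map_inv, map_pow, FreeGroup.lift_apply_of, lift_map,
          Sum.elim_inl]
        rw [lift_hom ιV w, hw]
        have e1 : ιV (e.symm a) = π (Monoid.Coprod.inl a) := by simp [ιV]
        rw [e1]
        refine core' ?_ ?_
        · rw [← hs, ← map_pow]; exact hπ _ ⟨j, Or.inl rfl⟩
        · rw [← map_inv, ← map_mul, ← map_mul, ← map_mul]; exact hπ _ ⟨j, Or.inr rfl⟩)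
  let ψV : PresentedGroup (Set.range R) →* PresentedGroup (Set.range R') :=
    PresentedGroup.toGroup (f := fun i => PresentedGroup.of (Sum.inl i)) (by
      rintro _ ⟨i, rfl⟩
      rw [← lift_map PresentedGroup.of Sum.inl]
      exact lift_of _ _ ⟨Sum.inl i, rfl⟩)
  let ψ0 : Monoid.Coprod V (FreeGroup (Fin k)) →* PresentedGroup (Set.range R') :=
    Monoid.Coprod.lift (ψV.comp e.symm.toMonoidHom)
      (FreeGroup.lift fun j => PresentedGroup.of (Sum.inr j))
  have key : ∀ j, (PresentedGroup.of (Sum.inr j) : PresentedGroup (Set.range R')) ^ (2 * s j + 1)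
      = 1 ∧ ψV (e.symm a) * PresentedGroup.of (Sum.inr j) * (ψV (e.symm a))⁻¹ *
        PresentedGroup.of (Sum.inr j) = 1 := fun j => by
    refine core (by rw [← map_pow, ← map_pow, ha, map_one, map_one]) ?_
    have h := lift_of (Set.range R') _ ⟨Sum.inr j, rfl⟩
    simp only [R', Sum.elim_inr, map_mul, map_inv, map_pow, FreeGroup.lift_apply_of, lift_map] at h
    have e1 := lift_hom ψV w
    simp only [ψV, PresentedGroup.toGroup.of] at e1
    rw [e1, hw] at h
    exact mul_inv_eq_one.1 h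
  have hker : Subgroup.normalClosure (starRels a m) ≤ ψ0.ker := by
    refine Subgroup.normalClosure_le_normal ?_
    rintro _ ⟨j, rfl | rfl⟩
    · have := (key j).1
      rw [← hs] at this
      simpa [ψ0] using this
    · simpa [ψ0] using (key j).2
  refine balanced_of_fintype R' (MonoidHom.toMulEquiv φ (QuotientGroup.lift _ ψ0 hker) ?_ ?_)
  · refine PresentedGroup.ext ?_
    rintro (i | j)
    · simp [φ, ψ0, ψV, ιV, π]
    · simp [φ, ψ0, π]
  · refine QuotientGroup.monoidHom_ext _ (Monoid.Coprod.hom_ext ?_ ?_)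
    · have : φ.comp ψV = ιV := by
        refine PresentedGroup.ext fun i => ?_
        simp [φ, ψV]
      ext x
      have h2 := DFunLike.congr_fun this (e.symm x)
      simpa [ψ0, ιV, π] using h2
    · ext j
      simp [φ, ψ0, π]

theorem balanced_proj : Balanced (Multiplicative (ZMod 2) × Multiplicative ℤ) := by
  let R : Fin 2 → FreeGroup (Fin 2) := ![FreeGroup.of 0 ^ (2 : ℤ),
    FreeGroup.of 0 * FreeGroup.of 1 * (FreeGroup.of 1 * FreeGroup.of 0)⁻¹]
  have iff : ∀ {H : Type} [Group H] (f : Fin 2 → H),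
      (∀ x ∈ Set.range R, FreeGroup.lift f x = 1) ↔
        f 0 ^ (2 : ℤ) = 1 ∧ f 0 * f 1 = f 1 * f 0 := by
    intro H _ f
    simp only [R, Set.forall_mem_range, Fin.forall_fin_two, Matrix.cons_val_zero,
      Matrix.cons_val_one, map_zpow, map_mul, map_inv, FreeGroup.lift_apply_of, mul_inv_eq_one]
  obtain ⟨h1, h2⟩ := (iff _).1 (lift_of _)
  refine ⟨2, R, assemble 2 (PresentedGroup.of 0) h1 (central_of_gens fun a => ?_)
    (zpowersHom _ (PresentedGroup.of 1))
    (PresentedGroup.toGroup (f := ![(Multiplicative.ofAdd 1, 1), (1, Multiplicative.ofAdd 1)])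
      ((iff _).2 ⟨mu0_pow (m := 2) dvd_rfl, mul_comm _ _⟩))
    (PresentedGroup.toGroup.of _) (fun g => ?_) ?_⟩
  · fin_cases a
    · rfl
    · exact h2
  · rw [zpowersHom_apply, map_zpow, PresentedGroup.toGroup.of]
    ext
    · simp
    · simp [← ofAdd_zsmul]
  · intro S hμ hψ
    refine PresentedGroup.generated_by _ S fun a => ?_
    fin_cases a
    · exact hμ
    · simpa using hψ (Multiplicative.ofAdd 1)

theorem balanced_factor {H : Type} [Group H] (h : IsFactor H) : Balanced H := by
  obtain ⟨⟨e⟩⟩ | ⟨⟨e⟩⟩ | ⟨V, _, a, k, m, hV, ha, hm, ⟨e⟩⟩ := h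
  · exact (balancedC 0).of_equiv e
  · exact balanced_proj.of_equiv e
  · exact (balanced_star (balancedAll V hV) a ha m hm).of_equiv e

theorem balanced_vf (G : Type) [Group G] (n : ℕ) (H : Fin n → Type) [∀ i, Group (H i)]
    (h : ∀ i, IsFactor (H i)) (e : G ≃* Monoid.CoprodI H) : Balanced G :=
  (balanced_coprodI H fun i => balanced_factor (h i)).of_equiv e

end Pool.Agent.Lib.H42VF
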