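import Mathlib

/-! In `<s,t | (st)^2 = s^3 = t^5>` the central element `s^3` has order dividing two
(a rewriting certificate). -/

namespace Pool.Agent.Lib.H91PerIco

variable {H : Type*} [Group H]

/-- letters `s, s⁻¹, t, t⁻¹` -/
def ltr (s t : H) : Fin 4 → H := ![s, s⁻¹, t, t⁻¹]

/-- `l = r * Z^k` -/
def V (s t Z : H) (l r : List (Fin 4)) (k : ℤ) : Prop :=
  (l.map (ltr s t)).prod = (r.map (ltr s t)).prod * Z ^ k

theorem V.step {s t Z : H} (hz : ∀ i, Commute Z (ltr s t i)) (u v : List (Fin 4))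
    {l r : List (Fin 4)} {k : ℤ} (h : V s t Z l r k) : V s t Z (u ++ l ++ v) (u ++ r ++ v) k := by
  have hc : Commute (Z ^ k) (v.map (ltr s t)).prod :=
    (Commute.list_prod_right _ _ fun x hx => by
      obtain ⟨i, -, rfl⟩ := List.mem_map.1 hx
      exact hz i).zpow_left k
  unfold V at *
  simp only [List.map_append, List.prod_append, h, mul_assoc, hc.eq]

theorem V.trans {s t Z : H} {a b b' c : List (Fin 4)} {k k' : ℤ} (h : V s t Z a b k)
    (h' : V s t Z b' c k') (e : b = b') : V s t Z a c (k' + k) := by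
  unfold V at *
  rw [h, e, h', zpow_add, mul_assoc]

theorem V.symm {s t Z : H} {a b : List (Fin 4)} {k : ℤ} (h : V s t Z a b k) :
    V s t Z b a (-k) := by
  unfold V at *
  rw [h]; group

theorem V.cast {s t Z : H} {a b a' b' : List (Fin 4)} {k k' : ℤ} (h : V s t Z a b k)
    (ea : a = a') (eb : b = b') (ek : k = k') : V s t Z a' b' k' := ea ▸ eb ▸ ek ▸ h

theorem ico {s t : H} (h1 : s * t * (s * t) = s ^ (3 : ℤ)) (h2 : s ^ (3 : ℤ) = t ^ (5 : ℤ)) :
    (s ^ (3 : ℤ)) ^ (2 : ℤ) = 1 := by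
  obtain ⟨Z, hZ⟩ : ∃ Z, Z = s ^ (3 : ℤ) := ⟨_, rfl⟩
  have zs : Commute Z s := by rw [hZ]; exact Commute.zpow_self s _
  have zt : Commute Z t := by rw [hZ, h2]; exact Commute.zpow_self t _
  have hz : ∀ i, Commute Z (ltr s t i) := fun i => by
    fin_cases i
    exacts [zs, zs.inv_right, zt, zt.inv_right]
  have r0 : V s t Z [0, 1] [] 0 := by simp [V, ltr]
  have r1 : V s t Z [1, 0] [] 0 := by simp [V, ltr]
  have r2 : V s t Z [2, 3] [] 0 := by simp [V, ltr]
  have r3 : V s t Z [3, 2] [] 0 := by simp [V, ltr]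
  have r4 : V s t Z [0, 0, 0] [] 1 := by
    simp [V, ltr, hZ, zpow_ofNat, pow_succ, mul_assoc]
  have r5 : V s t Z [2, 2, 2, 2, 2] [] 1 := by
    simp [V, ltr, hZ, h2, zpow_ofNat, pow_succ, mul_assoc]
  have r6 : V s t Z [0, 2, 0, 2] [] 1 := by
    simp [V, ltr, hZ, ← h1, mul_assoc]
  have r7 : V s t Z [0, 0] [1] (1) :=
    V.cast (V.trans (V.symm (V.step hz [] [0, 0] r1))
      (V.step hz [1] [] r4) (by decide)) (by decide) (by decide) (by decide)
  have r8 : V s t Z [1, 1] [0] (-1) :=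
    V.cast (V.trans (V.symm (V.step hz [1] [] r7))
      (V.step hz [] [0] r1) (by decide)) (by decide) (by decide) (by decide)
  have r9 : V s t Z [2, 0, 2] [1] (1) :=
    V.cast (V.trans (V.symm (V.step hz [] [2, 0, 2] r1))
      (V.step hz [1] [] r6) (by decide)) (by decide) (by decide) (by decide)
  have r10 : V s t Z [3, 1] [0, 2] (-1) :=
    V.cast (V.trans (V.symm (V.step hz [3] [] r9))
      (V.step hz [] [0, 2] r3) (by decide)) (by decide) (by decide) (by decide)
  have r11 : V s t Z [0, 2, 0] [3] (1) :=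
    V.cast (V.trans (V.symm (V.step hz [] [0] r10))
      (V.step hz [3] [] r1) (by decide)) (by decide) (by decide) (by decide)
  have r12 : V s t Z [0, 2, 1] [3, 0] (0) :=
    V.cast (V.trans (V.symm (V.step hz [] [1] r10))
      (V.step hz [3] [] r8) (by decide)) (by decide) (by decide) (by decide)
  have r13 : V s t Z [2, 0] [1, 3] (1) :=
    V.cast (V.trans (V.symm (V.step hz [] [2, 0] r1))
      (V.step hz [1] [] r11) (by decide)) (by decide) (by decide) (by decide)
  have r15 : V s t Z [1, 2, 1] [0, 3, 0] (-1) :=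
    V.cast (V.trans (V.symm (V.step hz [] [2, 1] r7))
      (V.step hz [0] [] r12) (by decide)) (by decide) (by decide) (by decide)
  have r16 : V s t Z [3, 0, 3, 0] [0, 2, 2, 1] (0) :=
    V.cast (V.trans (V.symm (V.step hz [3] [] r15))
      (V.step hz [] [2, 1] r10) (by decide)) (by decide) (by decide) (by decide)
  have r17 : V s t Z [2, 2, 2, 2] [3] (1) :=
    V.cast (V.trans (V.symm (V.step hz [] [2, 2, 2, 2] r3))
      (V.step hz [3] [] r5) (by decide)) (by decide) (by decide) (by decide)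
  have r18 : V s t Z [2, 2, 2] [3, 3] (1) :=
    V.cast (V.trans (V.symm (V.step hz [] [2, 2, 2] r3))
      (V.step hz [3] [] r17) (by decide)) (by decide) (by decide) (by decide)
  have r19 : V s t Z [3, 3, 3] [2, 2] (-1) :=
    V.cast (V.trans (V.symm (V.step hz [3] [] r18))
      (V.step hz [] [2, 2] r3) (by decide)) (by decide) (by decide) (by decide)
  have r20 : V s t Z [2, 2, 1, 3] [3, 3, 0] (0) :=
    V.cast (V.trans (V.symm (V.step hz [2, 2] [] r13))
      (V.step hz [] [0] r18) (by decide)) (by decide) (by decide) (by decide)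
  have r22 : V s t Z [3, 3, 0, 3, 3] [2, 2, 1, 2, 2] (-1) :=
    V.cast (V.trans (V.symm (V.step hz [] [3, 3] r20))
      (V.step hz [2, 2, 1] [] r19) (by decide)) (by decide) (by decide) (by decide)
  have r23 : V s t Z [3, 0, 2, 2, 1, 2] [2, 2, 1, 2, 2, 1] (0) :=
    V.cast (V.trans (V.symm (V.trans (V.step hz [3, 3, 0, 3] [] r10) (V.step hz [3] [2] r16) (by decide)))
      (V.step hz [] [1] r22) (by decide)) (by decide) (by decide) (by decide)
  have fin : V s t Z [0, 2, 2, 1, 2, 2, 1, 2] [0, 2, 2, 1, 2, 2, 1, 2] (-2) :=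
    V.cast (V.trans (V.symm (V.step hz [] [2, 2, 1, 2] r16))
      (V.trans (V.trans (V.trans (V.trans (V.trans (V.trans (V.trans (V.trans (V.trans (V.trans (V.trans (V.trans (V.trans (V.trans (V.trans (V.trans (V.trans (V.trans (V.step hz [3, 0] [] r23) (V.step hz [] [2, 1] r23) (by decide)) (V.step hz [2, 2, 1, 2, 2] [] r15) (by decide)) (V.step hz [2, 2, 1, 2] [3, 0] r13) (by decide)) (V.step hz [2, 2] [3, 3, 0] r15) (by decide)) (V.step hz [2] [3, 0, 3, 3, 0] r13) (by decide)) (V.step hz [2, 1] [0] r22) (by decide)) (V.step hz [2, 1, 2, 2, 1, 2] [] r13) (by decide)) (V.step hz [2, 1, 2, 2] [3] r15) (by decide)) (V.step hz [2, 1, 2] [3, 0, 3] r13) (by decide)) (V.step hz [2] [3, 3, 0, 3] r15) (by decide)) (V.step hz [] [3, 0, 3, 3, 0, 3] r13) (by decide)) (V.step hz [1] [0, 3] r22) (by decide)) (V.step hz [1, 2, 2, 1, 2] [3] r13) (by decide)) (V.step hz [1, 2, 2] [3, 3] r15) (by decide)) (V.step hz [1, 2] [3, 0, 3, 3] r13) (by decide)) (V.step hz [] [3, 3, 0,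 3, 3] r15) (by decide)) (V.step hz [0, 3, 0] [] r22) (by decide)) (V.step hz [0] [2] r23) (by decide)) (by decide)) (by decide) (by decide) (by decide)
  rw [← hZ]
  unfold V at fin
  simpa [zpow_neg] using fin

end Pool.Agent.Lib.H91PerIco
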