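import Pool.Agent.Lib.H91PerDefs

/-! The six families of finite groups with cohomological period dividing four, by their standard
presentations. -/

namespace Pool.Agent.Lib.H91Per

/-- Relators of `Z/n ⋊ Z/2^e` on `x, y`: `x^n = y^(2^e) = 1`, `y x y⁻¹ = x⁻¹`. -/
def metaRels (n e : ℕ) : Set (FreeGroup (Fin 2)) :=
  {FreeGroup.of 0 ^ n, FreeGroup.of 1 ^ (2 ^ e),
   FreeGroup.of 1 * FreeGroup.of 0 * (FreeGroup.of 1)⁻¹ * FreeGroup.of 0}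

/-- Relators of `Q_8 ⋊ Z/3^k` on `x, y, z`: `x^2 = (xy)^2 = y^2`, `z x z⁻¹ = y`, `z y z⁻¹ = xy`,
`z^(3^k) = 1`. -/
def tetRels (k : ℕ) : Set (FreeGroup (Fin 3)) :=
  {FreeGroup.of 0 ^ 2 * ((FreeGroup.of 0 * FreeGroup.of 1) ^ 2)⁻¹,
   FreeGroup.of 0 ^ 2 * (FreeGroup.of 1 ^ 2)⁻¹,
   FreeGroup.of 2 * FreeGroup.of 0 * (FreeGroup.of 2)⁻¹ * (FreeGroup.of 1)⁻¹,
   FreeGroup.of 2 * FreeGroup.of 1 * (FreeGroup.of 2)⁻¹ * (FreeGroup.of 0 * FreeGroup.of 1)⁻¹,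
   FreeGroup.of 2 ^ (3 ^ k)}

/-- Relators of the binary icosahedral group on `s, t`: `(st)^2 = s^3 = t^5`. -/
def icoRels : Set (FreeGroup (Fin 2)) :=
  {(FreeGroup.of 0 * FreeGroup.of 1) ^ 2 * (FreeGroup.of 0 ^ 3)⁻¹,
   FreeGroup.of 0 ^ 3 * (FreeGroup.of 1 ^ 5)⁻¹}

/-- `G` is isomorphic to `Z/m × H` with `H` trivial or in one of the five families, of order
prime to `m`. -/
def InPeriodFourList (G : Type) [Group G] : Prop :=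
  ∃ m : ℕ, 0 < m ∧
    (Nonempty (G ≃* Multiplicative (ZMod m)) ∨
     (∃ n e : ℕ, Odd n ∧ 1 ≤ e ∧ m.Coprime (2 * n) ∧
        Nonempty (G ≃* Multiplicative (ZMod m) × PresentedGroup (metaRels n e))) ∨
     (∃ (n k l : ℕ) (r : ℤ), 0 < n ∧ (8 * n).Coprime k ∧ (8 * n).Coprime l ∧ k.Coprime l ∧
        m.Coprime (8 * n * k * l) ∧ r ≡ -1 [ZMOD k] ∧ r ≡ 1 [ZMOD l] ∧
        Nonempty (G ≃* Multiplicative (ZMod m) × PresentedGroup (milnorRels n k l r))) ∨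
     (∃ k : ℕ, 1 ≤ k ∧ m.Coprime 6 ∧
        Nonempty (G ≃* Multiplicative (ZMod m) × PresentedGroup (tetRels k))) ∨
     (∃ r : ℕ, Odd r ∧ m.Coprime (6 * r) ∧
        Nonempty (G ≃* Multiplicative (ZMod m) × PresentedGroup (octRels r))) ∨
     (m.Coprime 30 ∧ Nonempty (G ≃* Multiplicative (ZMod m) × PresentedGroup icoRels)))

end Pool.Agent.Lib.H91Per
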