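import Pool.Agent.Lib.H91PerP
import Pool.Agent.Lib.H91PerIco
import Pool.Agent.Lib.H91PerList

/-! The remaining families and the whole list. -/

namespace Pool.Agent.Lib.H91Per
open Pool.Agent.Lib.H91PerQA Pool.Agent.Lib.H91PerQB

theorem Balanced.of_equiv {G G' : Type} [Group G] [Group G'] (h : Balanced G') (e : G ≃* G') :
    Balanced G := by
  obtain ⟨k, R, ⟨f⟩⟩ := h
  exact ⟨k, R, ⟨f.trans e.symm⟩⟩

theorem balancedC (m : ℕ) : Balanced (Multiplicative (ZMod m)) := by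
  refine Balanced.of_equiv (G' := Multiplicative (ZMod m) × Unit) ?_ MulEquiv.prodUnique.symm
  let R : Fin 1 → FreeGroup (Fin 1) := fun _ => FreeGroup.of 0 ^ (m : ℤ)
  refine ⟨1, R, ?_⟩
  have iff : ∀ {H : Type} [Group H] (f : Fin 1 → H),
      (∀ x ∈ Set.range R, FreeGroup.lift f x = 1) ↔ f 0 ^ (m : ℤ) = 1 := by
    intro H _ f
    simp only [R, Set.forall_mem_range, map_zpow, FreeGroup.lift_apply_of, forall_const]
  have h := (iff _).1 (lift_of _)
  refine assemble m (PresentedGroup.of 0) h (central_of_gens fun a => ?_) 1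
    (PresentedGroup.toGroup (f := fun _ => (Multiplicative.ofAdd 1, 1))
      ((iff _).2 (mu0_pow dvd_rfl))) (PresentedGroup.toGroup.of _) (fun g => by rw [MonoidHom.one_apply, map_one]; rfl) ?_
  · rw [Subsingleton.elim a 0]
  · intro S hμ _
    exact PresentedGroup.generated_by _ S fun a => by rw [Subsingleton.elim a 0]; exact hμ

theorem meta_iff {H : Type*} [Group H] (n e : ℕ) (f : Fin 2 → H) :
    (∀ x ∈ metaRels n e, FreeGroup.lift f x = 1) ↔
      f 0 ^ (n : ℤ) = 1 ∧ f 1 ^ ((2 : ℤ) ^ e) = 1 ∧ f 1 * f 0 * (f 1)⁻¹ = (f 0)⁻¹ := by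
  simp only [metaRels, Set.mem_insert_iff, Set.mem_singleton_iff, forall_eq_or_imp, forall_eq,
    map_mul, map_inv, map_zpow, FreeGroup.lift_apply_of,
    mul_eq_one_iff_eq_inv, ← zpow_natCast, Nat.cast_pow, Nat.cast_ofNat]

/-- relators for the metacyclic family -/
def relM (n a K : ℤ) : Fin 2 → FreeGroup (Fin 2) :=
  ![FreeGroup.of 1 * FreeGroup.of 1 * (FreeGroup.of 0 ^ n)⁻¹,
    FreeGroup.of 1 * FreeGroup.of 0 ^ (a * K) * (FreeGroup.of 1)⁻¹ *
      (FreeGroup.of 0 ^ ((a + 1) * K))⁻¹]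

theorem relM_iff {H : Type*} [Group H] (n a K : ℤ) (f : Fin 2 → H) :
    (∀ x ∈ Set.range (relM n a K), FreeGroup.lift f x = 1) ↔
      f 1 * f 1 = f 0 ^ n ∧ f 1 * f 0 ^ (a * K) * (f 1)⁻¹ = f 0 ^ ((a + 1) * K) := by
  simp only [Set.forall_mem_range, Fin.forall_fin_succ, relM, Matrix.cons_val_zero,
    Matrix.cons_val_succ, map_mul, map_inv, map_zpow, FreeGroup.lift_apply_of, mul_inv_eq_one,
    IsEmpty.forall_iff, and_true]

theorem coreM {H : Type*} [Group H] {T u : H} {n a K : ℤ} (h1 : u * u = T ^ n)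
    (h2 : u * T ^ (a * K) * u⁻¹ = T ^ ((a + 1) * K)) (ha : n = 2 * a + 1) (hK : IsCoprime n K) :
    T ^ (n * K) = 1 ∧ u * T ^ K * u⁻¹ = (T ^ K)⁻¹ := by
  have hna : IsCoprime n a := ⟨1, -2, by linear_combination ha⟩
  have e1 : (u * T * u⁻¹) ^ n = T ^ n := by rw [conj_zpow, ← h1]; group
  have e2 : (u * T * u⁻¹) ^ (a * K) = T ^ ((a + 1) * K) := by rw [conj_zpow, h2]
  have c : Commute T (u * T * u⁻¹) :=
    comm_of_coprime (by rw [e1]; exact Commute.self_zpow T _)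
      (by rw [e2]; exact Commute.self_zpow T _) (hna.mul_right hK)
  have p1 : (T * (u * T * u⁻¹)) ^ n = T ^ (2 * n) := by rw [c.mul_zpow, e1]; group
  have p2 : (T * (u * T * u⁻¹)) ^ (a * K) = T ^ (n * K) := by
    rw [c.mul_zpow, e2, ← zpow_add]; congr 1; rw [ha]; ring
  have o : T ^ (n * K) = 1 := by
    have : (T ^ (2 * n)) ^ (a * K) = (T ^ (n * K)) ^ n := by
      rw [← p1, ← p2, ← zpow_mul, ← zpow_mul, mul_comm n]
    rw [← zpow_mul, ← zpow_mul, ← mul_inv_eq_one, ← zpow_neg, ← zpow_add] at this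
    rw [← inv_eq_one, ← zpow_neg, ← this]; congr 1
    linear_combination (n * K) * ha
  refine ⟨o, ?_⟩
  have : (T * (u * T * u⁻¹)) ^ K = 1 := by
    refine eq_one_of_coprime (a := n) (b := a) ?_ ?_ hna
    · rw [← zpow_mul, mul_comm K, zpow_mul, p1, ← zpow_mul]
      simpa using per (b := 0) o 2 (by ring)
    · rw [← zpow_mul, mul_comm K, p2, o]
  rw [c.mul_zpow, conj_zpow] at this
  exact eq_inv_of_mul_eq_one_right this

theorem balancedM (m n e : ℕ) (hn : Odd n) (he : 1 ≤ e) (hm : m.Coprime (2 * n)) :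
    Balanced (Multiplicative (ZMod m) × PresentedGroup (metaRels n e)) := by
  have im : IsCoprime (m : ℤ) (2 * n) := by exact_mod_cast Nat.isCoprime_iff_coprime.2 hm
  obtain ⟨a, ha⟩ : Odd (n : ℤ) := by exact_mod_cast hn
  obtain ⟨L, hL, cL⟩ : ∃ L : ℤ, (2 : ℤ) ^ e = 2 * L ∧ IsCoprime (n : ℤ) L := by
    obtain ⟨e, rfl⟩ := Nat.exists_eq_add_of_le' he
    exact ⟨2 ^ e, by ring, IsCoprime.pow_right ⟨1, -a, by linear_combination ha⟩⟩
  obtain ⟨h, g, hg⟩ : IsCoprime (m : ℤ) (2 * L) := by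
    rw [← hL]; exact im.of_mul_right_left.pow_right
  have cK : IsCoprime (n : ℤ) (L * m) := cL.mul_right im.of_mul_right_right.symm
  obtain ⟨p, q, hpq⟩ := id cK
  refine ⟨2, relM n a (L * m), ?_⟩
  obtain ⟨h1, h2⟩ := (relM_iff _ _ _ _).1 (lift_of (Set.range (relM n a (L * m))))
  obtain ⟨m1, m2, m3⟩ := (meta_iff n e _).1 (lift_of _)
  have gen := PresentedGroup.generated_by (Set.range (relM n a (L * m)))
  have cen := @central_of_gens _ (Set.range (relM n a (L * m)))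
  set T : PresentedGroup (Set.range (relM n a (L * m))) := PresentedGroup.of 0 with eT
  set u : PresentedGroup (Set.range (relM n a (L * m))) := PresentedGroup.of 1 with eu
  set X : PresentedGroup (metaRels n e) := PresentedGroup.of 0 with eX
  set Y : PresentedGroup (metaRels n e) := PresentedGroup.of 1 with eY
  obtain ⟨o, inv⟩ := coreM h1 h2 ha cK
  have ou : u ^ (2 * (L * m)) = 1 := by rw [zpow_mul, zpow_two, h1, ← zpow_mul, o]
  obtain ⟨μ, eμ⟩ : ∃ μ, μ = u ^ (2 * L * g) := ⟨_, rfl⟩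
  have μm : μ ^ (m : ℤ) = 1 := by
    rw [eμ, ← zpow_mul]; simpa using per (b := 0) ou g (by ring)
  have μc : ∀ p, Commute μ p := by
    refine cen fun b => ?_
    fin_cases b
    · rw [eμ, mul_assoc, zpow_mul, zpow_two, h1, ← zpow_mul]; exact Commute.zpow_self T _
    · rw [eμ]; exact Commute.zpow_self u _
  let ψ : PresentedGroup (metaRels n e) →* PresentedGroup (Set.range (relM n a (L * m))) :=
    PresentedGroup.toGroup (f := ![T ^ (L * m), u * μ⁻¹]) ((meta_iff n e _).2 ⟨by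
      show (T ^ (L * m)) ^ (n : ℤ) = 1
      rw [← zpow_mul, mul_comm (L * m) (n : ℤ), o], by
      show (u * μ⁻¹) ^ ((2 : ℤ) ^ e) = 1
      rw [eμ, hL, ← zpow_neg, ← zpow_one_add, ← zpow_mul]
      simpa using per (b := 0) ou h (by linear_combination (-(2 * L)) * hg), by
      show u * μ⁻¹ * T ^ (L * m) * (u * μ⁻¹)⁻¹ = (T ^ (L * m))⁻¹
      rw [← inv, mul_assoc u, (μc _).inv_left.eq]; group⟩)
  have ψX : ψ X = T ^ (L * m) := PresentedGroup.toGroup.of _
  have ψY : ψ Y = u * μ⁻¹ := PresentedGroup.toGroup.of _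
  let ι : PresentedGroup (metaRels n e) →*
    Multiplicative (ZMod m) × PresentedGroup (metaRels n e) := MonoidHom.inr _ _
  obtain ⟨μ0, eμ0⟩ : ∃ μ0 : Multiplicative (ZMod m) × PresentedGroup (metaRels n e),
    μ0 = (Multiplicative.ofAdd 1, 1) := ⟨_, rfl⟩
  have μ0c : ∀ p, Commute μ0 p := by rw [eμ0]; exact mu0_central
  have μ0m : μ0 ^ (m : ℤ) = 1 := by rw [eμ0]; exact mu0_pow dvd_rfl
  obtain ⟨U, eU⟩ : ∃ U, U = ι Y * μ0 := ⟨_, rfl⟩
  have Up : ∀ k : ℤ, U ^ (2 * L * k) = μ0 ^ (2 * L * k) := fun k => by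
    rw [eU, (μ0c _).symm.mul_zpow, ← map_zpow, zpow_mul Y, ← hL, m2]; simp
  have oU : (U * U) ^ (L * m) = 1 := by
    rw [← zpow_two, ← zpow_mul, ← mul_assoc, Up, mul_comm, zpow_mul, μ0m, one_zpow]
  have UX : U * ι X * U⁻¹ = (ι X)⁻¹ := by
    rw [← map_inv, ← m3, map_mul, map_mul, map_inv, eU, mul_assoc (ι Y), (μ0c _).eq]; group
  have oX : ι X ^ (n : ℤ) = 1 := by rw [← map_zpow, m1, map_one]
  have cUX : Commute (U * U) (ι X) := by
    show _ = _
    calc U * U * ι X = U * (U * ι X * U⁻¹) * U := by simp [mul_assoc]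
      _ = U * (ι X)⁻¹ * U := by rw [UX]
      _ = (U * ι X * U⁻¹)⁻¹ * (U * U) := by simp [mul_assoc]
      _ = _ := by rw [UX, inv_inv]
  obtain ⟨T0, eT0⟩ : ∃ T0, T0 = (U * U) ^ p * ι X ^ q := ⟨_, rfl⟩
  have Tp : ∀ k : ℤ, T0 ^ k = (U * U) ^ (p * k) * ι X ^ (q * k) := fun k => by
    rw [eT0, (cUX.zpow_zpow _ _).mul_zpow, ← zpow_mul, ← zpow_mul]
  have Tn : U * U = T0 ^ (n : ℤ) := by
    rw [Tp, per (b := 1) oU (-q) (by linear_combination hpq), per (b := 0) oX q (by ring)]; simp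
  have TK : T0 ^ (L * m) = ι X := by
    rw [Tp, per (b := 0) oU p (by ring), per (b := 1) oX (-p) (by linear_combination hpq)]; simp
  let φ : PresentedGroup (Set.range (relM n a (L * m))) →*
      Multiplicative (ZMod m) × PresentedGroup (metaRels n e) :=
    PresentedGroup.toGroup (f := ![T0, U]) ((relM_iff _ _ _ _).2 ⟨Tn, by
      show U * T0 ^ (a * (L * m)) * U⁻¹ = T0 ^ ((a + 1) * (L * m))
      rw [mul_comm a, mul_comm (a + 1), zpow_mul T0 _ a, zpow_mul T0 _ (a + 1), TK, ← conj_zpow, UX,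
        inv_zpow']
      exact (per oX 1 (by linear_combination -ha)).symm⟩)
  have φT : φ T = T0 := PresentedGroup.toGroup.of _
  have φu : φ u = U := PresentedGroup.toGroup.of _
  have φμ : φ μ = μ0 := by
    rw [eμ, map_zpow, φu, Up, per (b := 1) μ0m (-h) (by linear_combination hg), zpow_one]
  refine assemble m μ μm μc ψ φ (by rw [φμ, eμ0]) ?_ ?_
  · have : φ.comp ψ = ι := by
      refine PresentedGroup.ext fun b => ?_
      fin_cases b
      · show φ (ψ X) = ι X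
        rw [ψX, map_zpow, φT, TK]
      · show φ (ψ Y) = ι Y
        rw [ψY, map_mul, map_inv, φu, φμ, eU]; group
    intro b
    exact DFunLike.congr_fun this b
  · intro S hμ hψ
    have sX := hψ X
    have sY := hψ Y
    rw [ψX] at sX
    rw [ψY] at sY
    have su : u ∈ S := (S.mul_mem_cancel_right (S.inv_mem hμ)).1 sY
    have sT : T ∈ S := mem_of_coprime S (by rw [← h1]; exact S.mul_mem su su) sX cK
    refine gen S fun b => ?_
    fin_cases b
    exacts [sT, su]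

theorem tet_iff {H : Type*} [Group H] (k : ℕ) (f : Fin 3 → H) :
    (∀ x ∈ tetRels k, FreeGroup.lift f x = 1) ↔
      f 0 * f 0 = f 0 * f 1 * (f 0 * f 1) ∧ f 0 * f 0 = f 1 * f 1 ∧
        f 2 * f 0 * (f 2)⁻¹ = f 1 ∧ f 2 * f 1 * (f 2)⁻¹ = f 0 * f 1 ∧ f 2 ^ ((3 : ℤ) ^ k) = 1 := by
  simp only [tetRels, Set.mem_insert_iff, Set.mem_singleton_iff, forall_eq_or_imp, forall_eq,
    map_mul, map_inv, map_zpow, FreeGroup.lift_apply_of,
    mul_eq_one_iff_eq_inv, ← zpow_natCast, Nat.cast_pow, Nat.cast_ofNat, inv_inv, zpow_two]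

/-- relators for the tetrahedral family -/
def relT (d : ℤ) : Fin 2 → FreeGroup (Fin 2) :=
  ![FreeGroup.of 0 * FreeGroup.of 0 * (FreeGroup.of 1 ^ (3 * d))⁻¹,
    FreeGroup.of 0 * FreeGroup.of 1 * (FreeGroup.of 0 * FreeGroup.of 1) *
      (FreeGroup.of 0 * FreeGroup.of 1) * (FreeGroup.of 1 ^ (3 * d + 3))⁻¹]

theorem relT_iff {H : Type*} [Group H] (d : ℤ) (f : Fin 2 → H) :
    (∀ x ∈ Set.range (relT d), FreeGroup.lift f x = 1) ↔
      f 0 * f 0 = f 1 ^ (3 * d) ∧ f 0 * f 1 * (f 0 * f 1) * (f 0 * f 1) = f 1 ^ (3 * d + 3) := by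
  simp only [Set.forall_mem_range, Fin.forall_fin_succ, relT, Matrix.cons_val_zero,
    Matrix.cons_val_succ, map_mul, map_inv, map_zpow, FreeGroup.lift_apply_of, mul_inv_eq_one,
    IsEmpty.forall_iff, and_true]

theorem q8 {H : Type*} [Group H] {x y : H} (m1 : x * x = x * y * (x * y)) (m2 : x * x = y * y) :
    x * x * (x * x) = 1 := by
  have k3 : y * (x * y) = x := by
    have : x * x = x * (y * (x * y)) := by rw [m1]; group
    exact (mul_left_cancel this).symm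
  have xy : x * y * x⁻¹ = y⁻¹ := by
    calc x * y * x⁻¹ = y⁻¹ * (y * (x * y)) * x⁻¹ := by group
      _ = y⁻¹ := by rw [k3]; group
  calc x * x * (x * x) = x * (x * x) * x⁻¹ * (x * x) := by group
    _ = (x * y * x⁻¹) * (x * y * x⁻¹) * (y * y) := by rw [m2]; group
    _ = 1 := by rw [xy]; group

theorem coreT {H : Type*} [Group H] {x t : H} {d : ℤ} (h1 : x * x = t ^ (3 * d))
    (h2 : x * t * (x * t) * (x * t) = t ^ (3 * d + 3)) {y : H} (hy : y = t * x * t⁻¹) :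
    Commute (t ^ (3 : ℤ)) x ∧ x * x = x * y * (x * y) ∧ x * x = y * y ∧ t * y * t⁻¹ = x * y := by
  have c1 : Commute (t ^ (3 * d)) x := by
    rw [← h1]; exact (Commute.refl x).mul_left (Commute.refl x)
  have c2 : Commute (t ^ (3 * d + 3)) x := by
    have a1 : Commute (t ^ (3 * d + 3)) (x * t) := by
      rw [← h2]; exact ((Commute.refl _).mul_left (Commute.refl _)).mul_left (Commute.refl _)
    simpa using a1.mul_right (Commute.zpow_self t _).inv_right
  have c3 : Commute (t ^ (3 : ℤ)) x := by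
    have := c1.inv_left.mul_left c2
    rwa [show (t ^ (3 * d))⁻¹ * t ^ (3 * d + 3) = t ^ (3 : ℤ) by group] at this
  have yy : y * y = t ^ (3 * d) := by
    calc y * y = t * (x * x) * t⁻¹ := by rw [hy]; group
      _ = _ := by rw [h1]; group
  have k1 : t * y * t⁻¹ = x * y := by
    have e1 : x * y * (t * y * t⁻¹) = t ^ (3 * d) := by
      calc x * y * (t * y * t⁻¹) = x * t * (x * t) * (x * t) * t ^ (-3 : ℤ) := by rw [hy]; group
        _ = _ := by rw [h2]; group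
    have e2 : t * y * t⁻¹ * (t * y * t⁻¹) = t ^ (3 * d) := by
      calc _ = t * (y * y) * t⁻¹ := by group
        _ = _ := by rw [yy]; group
    exact mul_right_cancel (e2.trans e1.symm)
  refine ⟨c3, ?_, by rw [yy, h1], k1⟩
  calc x * x = t * (y * y) * t⁻¹ := by rw [h1, yy]; group
    _ = (t * y * t⁻¹) * (t * y * t⁻¹) := by group
    _ = _ := by rw [k1]

theorem balancedT (m k : ℕ) (hk : 1 ≤ k) (hm : m.Coprime 6) :
    Balanced (Multiplicative (ZMod m) × PresentedGroup (tetRels k)) := by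
  have im : IsCoprime (m : ℤ) (2 * 3) := by exact_mod_cast Nat.isCoprime_iff_coprime.2 hm
  obtain ⟨D, hD, ⟨c, hc⟩⟩ : ∃ D : ℤ, (3 : ℤ) ^ k = 3 * D ∧ Odd D := by
    obtain ⟨k, rfl⟩ := Nat.exists_eq_add_of_le' hk
    exact ⟨3 ^ k, by ring, Odd.pow (by decide)⟩
  obtain ⟨h, g, hg⟩ : IsCoprime (m : ℤ) (2 * (3 * D)) := by
    rw [← hD]; exact im.of_mul_right_left.mul_right im.of_mul_right_right.pow_right
  have od : ∀ a b c : ℤ, a * b + 2 * c = 1 → ∃ i, a = 2 * i + 1 := fun a b c e => by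
    rcases Int.even_or_odd' a with ⟨i, hi | hi⟩
    · exfalso; rw [hi] at e
      have : 2 * (i * b + c) = 1 := by linear_combination e
      omega
    · exact ⟨i, hi⟩
  obtain ⟨h', hh⟩ := od h m (g * (3 * D)) (by linear_combination hg)
  obtain ⟨m', hm'⟩ := od m h (g * (3 * D)) (by linear_combination hg)
  refine ⟨2, relT (D * m), ?_⟩
  obtain ⟨h1, h2⟩ := (relT_iff _ _).1 (lift_of (Set.range (relT (D * m))))
  obtain ⟨m1, m2, m3, m4, m5⟩ := (tet_iff k _).1 (lift_of _)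
  have gen := PresentedGroup.generated_by (Set.range (relT (D * m)))
  have cen := @central_of_gens _ (Set.range (relT (D * m)))
  set x : PresentedGroup (Set.range (relT (D * m))) := PresentedGroup.of 0 with ex
  set t : PresentedGroup (Set.range (relT (D * m))) := PresentedGroup.of 1 with et
  set X : PresentedGroup (tetRels k) := PresentedGroup.of 0 with eX
  set Y : PresentedGroup (tetRels k) := PresentedGroup.of 1 with eY
  set Z : PresentedGroup (tetRels k) := PresentedGroup.of 2 with eZ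
  obtain ⟨c3, k1, k2, k3⟩ := coreT h1 h2 rfl
  have ot : t ^ (2 * (3 * (D * m))) = 1 := by rw [two_mul, zpow_add, ← h1]; exact q8 k1 k2
  have c3' : ∀ p, Commute (t ^ (3 : ℤ)) p := cen fun b => by
    fin_cases b
    exacts [c3, Commute.zpow_self t _]
  obtain ⟨μ, eμ⟩ : ∃ μ, μ = (t ^ (3 : ℤ)) ^ (2 * D * g) := ⟨_, rfl⟩
  have μm : μ ^ (m : ℤ) = 1 := by
    rw [eμ, ← zpow_mul, ← zpow_mul]; simpa using per (b := 0) ot g (by ring)
  have μc : ∀ p, Commute μ p := fun p => by rw [eμ]; exact (c3' p).zpow_left _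
  have cz : ∀ p, t * (μ⁻¹ * (x * x)) * p * (t * (μ⁻¹ * (x * x)))⁻¹ = t * p * t⁻¹ := fun p => by
    have : Commute (μ⁻¹ * (x * x)) p :=
      (μc p).inv_left.mul_left (by rw [h1, zpow_mul]; exact (c3' p).zpow_left _)
    rw [mul_assoc t, this.eq]; group
  let ψ : PresentedGroup (tetRels k) →* PresentedGroup (Set.range (relT (D * m))) :=
    PresentedGroup.toGroup (f := ![x, t * x * t⁻¹, t * (μ⁻¹ * (x * x))]) ((tet_iff k _).2
      ⟨k1, k2, cz _, (cz _).trans k3, by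
        show (t * (μ⁻¹ * (x * x))) ^ ((3 : ℤ) ^ k) = 1
        rw [h1, eμ, hD, ← zpow_mul, ← zpow_neg, ← zpow_add, ← zpow_one_add, ← zpow_mul]
        simpa using per (b := 0) ot (h' + 3 * c + 2)
          (by linear_combination (-(3 * D)) * hg + (3 * D * m) * hh + (9 * D * m) * hc)⟩)
  have ψX : ψ X = x := PresentedGroup.toGroup.of _
  have ψY : ψ Y = t * x * t⁻¹ := PresentedGroup.toGroup.of _
  have ψZ : ψ Z = t * (μ⁻¹ * (x * x)) := PresentedGroup.toGroup.of _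
  let ι : PresentedGroup (tetRels k) →*
    Multiplicative (ZMod m) × PresentedGroup (tetRels k) := MonoidHom.inr _ _
  obtain ⟨μ0, eμ0⟩ : ∃ μ0 : Multiplicative (ZMod m) × PresentedGroup (tetRels k),
    μ0 = (Multiplicative.ofAdd 1, 1) := ⟨_, rfl⟩
  have μ0c : ∀ p, Commute μ0 p := by rw [eμ0]; exact mu0_central
  have μ0m : μ0 ^ (m : ℤ) = 1 := by rw [eμ0]; exact mu0_pow dvd_rfl
  have εε := q8 m1 m2
  have ε2 : (X * X) ^ (2 : ℤ) = 1 := by rw [zpow_two, εε]
  have εZ : Commute Z (X * X) := by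
    have : Z * (X * X) * Z⁻¹ = X * X := by
      calc Z * (X * X) * Z⁻¹ = (Z * X * Z⁻¹) * (Z * X * Z⁻¹) := by group
        _ = _ := by rw [m3, m2]
    show _ = _
    nth_rewrite 2 [← this]; group
  obtain ⟨τ, eτ⟩ : ∃ τ, τ = ι (Z * (X * X)) * μ0 := ⟨_, rfl⟩
  have τp : ∀ n : ℤ, τ ^ (3 * D * n) = ι ((X * X) ^ n) * μ0 ^ (3 * D * n) := fun n => by
    rw [eτ, (μ0c _).symm.mul_zpow, ← map_zpow, εZ.mul_zpow, zpow_mul Z, ← hD, m5, one_zpow, one_mul,
      hD, per (a := 3 * D * n) (b := n) ε2 ((3 * c + 1) * n) (by rw [hc]; ring)]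
  have cτ : ∀ p, Commute (X * X) p → τ * ι p * τ⁻¹ = ι (Z * p * Z⁻¹) := fun p hp => by
    have : Z * p * Z⁻¹ = Z * (X * X) * p * (Z * (X * X))⁻¹ := by
      rw [mul_assoc Z (X * X) p, hp.eq]; group
    rw [this, eτ, mul_assoc (ι _), (μ0c _).eq]; simp only [map_mul, map_inv]; group
  have τX : τ * ι X * τ⁻¹ = ι Y := by rw [cτ _ ((Commute.refl X).mul_left (Commute.refl X)), m3]
  have τY : τ * ι Y * τ⁻¹ = ι (X * Y) := by
    rw [cτ _ (by rw [m2]; exact (Commute.refl Y).mul_left (Commute.refl Y)), m4]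
  have r1 : ι X * ι X = τ ^ (3 * (D * m)) := by
    rw [← mul_assoc, τp, per (b := 0) μ0m (3 * D) (by ring),
      per (a := (m : ℤ)) (b := 1) ε2 m' (by linear_combination hm')]
    simp
  let φ : PresentedGroup (Set.range (relT (D * m))) →*
      Multiplicative (ZMod m) × PresentedGroup (tetRels k) :=
    PresentedGroup.toGroup (f := ![ι X, τ]) ((relT_iff _ _).2 ⟨r1, by
      show ι X * τ * (ι X * τ) * (ι X * τ) = τ ^ (3 * (D * m) + 3)
      calc _ = ι X * (τ * ι X * τ⁻¹) * (τ * (τ * ι X * τ⁻¹) * τ⁻¹) * τ ^ (3 : ℤ) := by group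
        _ = _ := by rw [τX, τY, ← map_mul, ← map_mul, ← m1, map_mul, r1, zpow_add]⟩)
  have φx : φ x = ι X := PresentedGroup.toGroup.of _
  have φt : φ t = τ := PresentedGroup.toGroup.of _
  have φμ : φ μ = μ0 := by
    rw [eμ, map_zpow, map_zpow, φt, ← zpow_mul, show 3 * (2 * D * g) = 3 * D * (2 * g) by ring, τp,
      zpow_mul (X * X), ε2, per (b := 1) μ0m (-h) (by linear_combination hg)]
    simp
  refine assemble m μ μm μc ψ φ (by rw [φμ, eμ0]) ?_ ?_
  · have : φ.comp ψ = ι := by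
      refine PresentedGroup.ext fun b => ?_
      fin_cases b
      · show φ (ψ X) = ι X
        rw [ψX, φx]
      · show φ (ψ Y) = ι Y
        rw [ψY, map_mul, map_mul, map_inv, φt, φx, τX]
      · show φ (ψ Z) = ι Z
        rw [ψZ, map_mul, map_mul, map_mul, map_inv, φt, φx, φμ, eτ, mul_assoc, mul_inv_cancel_left,
          ← map_mul, ← map_mul, mul_assoc Z, εε, mul_one]
    intro b
    exact DFunLike.congr_fun this b
  · intro S hμ hψ
    have sX := hψ X
    have sZ := hψ Z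
    rw [ψX] at sX
    rw [ψZ] at sZ
    have st : t ∈ S := (S.mul_mem_cancel_right (S.mul_mem (S.inv_mem hμ) (S.mul_mem sX sX))).1 sZ
    refine gen S fun b => ?_
    fin_cases b
    exacts [sX, st]

theorem ico_iff {H : Type*} [Group H] (f : Fin 2 → H) :
    (∀ x ∈ icoRels, FreeGroup.lift f x = 1) ↔
      f 0 * f 1 * (f 0 * f 1) = f 0 ^ (3 : ℤ) ∧ f 0 ^ (3 : ℤ) = f 1 ^ (5 : ℤ) := by
  simp only [icoRels, Set.mem_insert_iff, Set.mem_singleton_iff, forall_eq_or_imp, forall_eq,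
    map_mul, map_inv, map_zpow, FreeGroup.lift_apply_of,
    mul_eq_one_iff_eq_inv, ← zpow_natCast, Nat.cast_ofNat, inv_inv, zpow_two]

/-- relators for the icosahedral family -/
def relI (m : ℤ) : Fin 2 → FreeGroup (Fin 2) :=
  ![FreeGroup.of 0 ^ m * FreeGroup.of 1 ^ m * (FreeGroup.of 0 ^ m * FreeGroup.of 1 ^ m) *
      ((FreeGroup.of 0 ^ m) ^ (3 : ℤ))⁻¹,
    FreeGroup.of 0 ^ (3 : ℤ) * (FreeGroup.of 1 ^ (5 : ℤ))⁻¹]

theorem relI_iff {H : Type*} [Group H] (m : ℤ) (f : Fin 2 → H) :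
    (∀ x ∈ Set.range (relI m), FreeGroup.lift f x = 1) ↔
      f 0 ^ m * f 1 ^ m * (f 0 ^ m * f 1 ^ m) = (f 0 ^ m) ^ (3 : ℤ) ∧
        f 0 ^ (3 : ℤ) = f 1 ^ (5 : ℤ) := by
  simp only [Set.forall_mem_range, Fin.forall_fin_succ, relI, Matrix.cons_val_zero,
    Matrix.cons_val_succ, map_mul, map_inv, map_zpow, FreeGroup.lift_apply_of, mul_inv_eq_one,
    IsEmpty.forall_iff, and_true]

theorem balancedI (m : ℕ) (hm : m.Coprime 30) :
    Balanced (Multiplicative (ZMod m) × PresentedGroup icoRels) := by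
  have im : IsCoprime (m : ℤ) (2 * (3 * 5)) := by exact_mod_cast Nat.isCoprime_iff_coprime.2 hm
  obtain ⟨p, g, hg⟩ := id im
  refine ⟨2, relI m, ?_⟩
  obtain ⟨h1, h2⟩ := (relI_iff _ _).1 (lift_of (Set.range (relI m)))
  obtain ⟨m1, m2⟩ := (ico_iff _).1 (lift_of icoRels)
  have gen := PresentedGroup.generated_by (Set.range (relI m))
  have cen := @central_of_gens _ (Set.range (relI m))
  set a : PresentedGroup (Set.range (relI m)) := PresentedGroup.of 0 with ea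
  set b : PresentedGroup (Set.range (relI m)) := PresentedGroup.of 1 with eb
  set s : PresentedGroup icoRels := PresentedGroup.of 0 with es
  set t : PresentedGroup icoRels := PresentedGroup.of 1 with et
  have h3 : (a ^ (m : ℤ)) ^ (3 : ℤ) = (b ^ (m : ℤ)) ^ (5 : ℤ) := by
    rw [← zpow_mul, ← zpow_mul, mul_comm _ (3 : ℤ), mul_comm _ (5 : ℤ), zpow_mul, zpow_mul, h2]
  have oa := H91PerIco.ico h1 h3
  have os := H91PerIco.ico m1 m2
  have ot := os
  rw [m2] at ot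
  rw [← zpow_mul] at os ot
  rw [← zpow_mul, ← zpow_mul] at oa
  obtain ⟨μ, eμ⟩ : ∃ μ, μ = (a ^ (3 : ℤ)) ^ (2 * g) := ⟨_, rfl⟩
  have μm : μ ^ (m : ℤ) = 1 := by
    rw [eμ, ← zpow_mul, ← zpow_mul]; simpa using per (b := 0) oa g (by ring)
  have μc : ∀ p, Commute μ p := cen fun j => by
    fin_cases j
    · rw [eμ]; exact (Commute.zpow_self a _).zpow_left _
    · rw [eμ, h2]; exact (Commute.zpow_self b _).zpow_left _
  let ψ : PresentedGroup icoRels →* PresentedGroup (Set.range (relI m)) :=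
    PresentedGroup.toGroup (f := ![a ^ (m : ℤ), b ^ (m : ℤ)]) ((ico_iff _).2 ⟨h1, h3⟩)
  have ψs : ψ s = a ^ (m : ℤ) := PresentedGroup.toGroup.of _
  have ψt : ψ t = b ^ (m : ℤ) := PresentedGroup.toGroup.of _
  let ι : PresentedGroup icoRels →* Multiplicative (ZMod m) × PresentedGroup icoRels :=
    MonoidHom.inr _ _
  obtain ⟨μ0, eμ0⟩ : ∃ μ0 : Multiplicative (ZMod m) × PresentedGroup icoRels,
    μ0 = (Multiplicative.ofAdd 1, 1) := ⟨_, rfl⟩
  have μ0c : ∀ p, Commute μ0 p := by rw [eμ0]; exact mu0_central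
  have μ0m : μ0 ^ (m : ℤ) = 1 := by rw [eμ0]; exact mu0_pow dvd_rfl
  have pw : ∀ (x : PresentedGroup icoRels) (e n : ℤ),
      (ι (x ^ p) * μ0 ^ e) ^ n = ι (x ^ (p * n)) * μ0 ^ (e * n) := fun x e n => by
    rw [((μ0c _).zpow_left e).symm.mul_zpow, ← map_zpow, ← zpow_mul, ← zpow_mul]
  have As : (ι (s ^ p) * μ0 ^ (5 : ℤ)) ^ (m : ℤ) = ι s := by
    rw [pw, per (b := 0) μ0m 5 (by ring), per (b := 1) os (-(5 * g)) (by linear_combination hg)]
    simp
  have Bt : (ι (t ^ p) * μ0 ^ (3 : ℤ)) ^ (m : ℤ) = ι t := by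
    rw [pw, per (b := 0) μ0m 3 (by ring), per (b := 1) ot (-(3 * g)) (by linear_combination hg)]
    simp
  let φ : PresentedGroup (Set.range (relI m)) →* Multiplicative (ZMod m) × PresentedGroup icoRels :=
    PresentedGroup.toGroup (f := ![ι (s ^ p) * μ0 ^ (5 : ℤ), ι (t ^ p) * μ0 ^ (3 : ℤ)])
      ((relI_iff _ _).2 ⟨by
        show (ι (s ^ p) * μ0 ^ (5 : ℤ)) ^ (m : ℤ) * (ι (t ^ p) * μ0 ^ (3 : ℤ)) ^ (m : ℤ) *
          ((ι (s ^ p) * μ0 ^ (5 : ℤ)) ^ (m : ℤ) * (ι (t ^ p) * μ0 ^ (3 : ℤ)) ^ (m : ℤ)) =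
          ((ι (s ^ p) * μ0 ^ (5 : ℤ)) ^ (m : ℤ)) ^ (3 : ℤ)
        rw [As, Bt, ← map_mul, ← map_mul, m1, map_zpow], by
        show (ι (s ^ p) * μ0 ^ (5 : ℤ)) ^ (3 : ℤ) = (ι (t ^ p) * μ0 ^ (3 : ℤ)) ^ (5 : ℤ)
        rw [pw, pw, mul_comm p, mul_comm p, zpow_mul s, zpow_mul t, m2]; rfl⟩)
  have φa : φ a = ι (s ^ p) * μ0 ^ (5 : ℤ) := PresentedGroup.toGroup.of _
  have φb : φ b = ι (t ^ p) * μ0 ^ (3 : ℤ) := PresentedGroup.toGroup.of _
  have φμ : φ μ = μ0 := by
    rw [eμ, ← zpow_mul, map_zpow, φa, pw, per (b := 0) os (p * g) (by ring),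
      per (b := 1) μ0m (-p) (by linear_combination hg)]
    simp
  refine assemble m μ μm μc ψ φ (by rw [φμ, eμ0]) ?_ ?_
  · have : φ.comp ψ = ι := by
      refine PresentedGroup.ext fun j => ?_
      fin_cases j
      · show φ (ψ s) = ι s
        rw [ψs, map_zpow, φa, As]
      · show φ (ψ t) = ι t
        rw [ψt, map_zpow, φb, Bt]
    intro j
    exact DFunLike.congr_fun this j
  · intro S hμ hψ
    have ss := hψ s
    have st := hψ t
    rw [ψs] at ss
    rw [ψt] at st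
    have s3 : a ^ (3 : ℤ) ∈ S := by
      have : a ^ (3 : ℤ) = (a ^ (m : ℤ)) ^ (3 * p) * μ ^ (15 : ℤ) := by
        rw [eμ, ← zpow_mul, ← zpow_mul, ← zpow_mul, ← zpow_add]; congr 1
        linear_combination (-3) * hg
      rw [this]; exact S.mul_mem (S.zpow_mem ss _) (S.zpow_mem hμ _)
    have sa : a ∈ S := mem_of_coprime S ss s3 im.of_mul_right_right.of_mul_right_left
    have sb : b ∈ S := mem_of_coprime S st (h2 ▸ s3) im.of_mul_right_right.of_mul_right_right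
    refine gen S fun j => ?_
    fin_cases j
    exacts [sa, sb]

theorem balancedAll (G : Type) [Group G] (h : InPeriodFourList G) : Balanced G := by
  obtain ⟨m, -, ⟨⟨e⟩⟩ | ⟨n, e', h1, h2, h3, ⟨e⟩⟩ | ⟨n, k, l, r, -, h1, h2, h3, h4, h5, h6, ⟨e⟩⟩ |
    ⟨k, h1, h2, ⟨e⟩⟩ | ⟨r, h1, h2, ⟨e⟩⟩ | ⟨h1, ⟨e⟩⟩⟩ := h
  exacts [(balancedC m).of_equiv e, (balancedM m n e' h1 h2 h3).of_equiv e,
    (balancedQ m n k l r h1 h2 h3 h4 h5 h6).of_equiv e, (balancedT m k h1 h2).of_equiv e,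
    (balancedP m r h1 h2).of_equiv e, (balancedI m h1).of_equiv e]

end Pool.Agent.Lib.H91Per
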