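import Mathlib

/-! Balanced presentations and the standard presentations of two families of finite groups with
cohomological period four. -/

namespace Pool.Agent.Lib.H91Per

/-- `G` has a finite presentation with equally many generators and relators. -/
def Balanced (G : Type) [Group G] : Prop :=
  ∃ (k : ℕ) (R : Fin k → FreeGroup (Fin k)), Nonempty (PresentedGroup (Set.range R) ≃* G)

/-- Milnor's relators for `Q(8n; k, l)` on `x, y, z`: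
`x^2 = (xy)^2 = y^(2n)`, `z^(kl) = 1`, `x z x⁻¹ = z^r`, `y z y⁻¹ = z⁻¹`. -/
def milnorRels (n k l : ℕ) (r : ℤ) : Set (FreeGroup (Fin 3)) :=
  {FreeGroup.of 0 ^ 2 * ((FreeGroup.of 0 * FreeGroup.of 1) ^ 2)⁻¹,
   FreeGroup.of 0 ^ 2 * (FreeGroup.of 1 ^ (2 * n))⁻¹,
   FreeGroup.of 2 ^ (k * l),
   FreeGroup.of 0 * FreeGroup.of 2 * (FreeGroup.of 0)⁻¹ * (FreeGroup.of 2 ^ r)⁻¹,
   FreeGroup.of 1 * FreeGroup.of 2 * (FreeGroup.of 1)⁻¹ * FreeGroup.of 2}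

/-- Relators for the generalised binary octahedral group of order `48 r` on `x, y, z, w`:
`x^2 = (xy)^2 = y^2 = w^2`, `z x z⁻¹ = y`, `z y z⁻¹ = xy`, `w x w⁻¹ = yx`, `w z w⁻¹ = z⁻¹`,
`z^(3r) = 1`. -/
def octRels (r : ℕ) : Set (FreeGroup (Fin 4)) :=
  {FreeGroup.of 0 ^ 2 * ((FreeGroup.of 0 * FreeGroup.of 1) ^ 2)⁻¹,
   FreeGroup.of 0 ^ 2 * (FreeGroup.of 1 ^ 2)⁻¹,
   FreeGroup.of 0 ^ 2 * (FreeGroup.of 3 ^ 2)⁻¹,
   FreeGroup.of 2 * FreeGroup.of 0 * (FreeGroup.of 2)⁻¹ * (FreeGroup.of 1)⁻¹,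
   FreeGroup.of 2 * FreeGroup.of 1 * (FreeGroup.of 2)⁻¹ * (FreeGroup.of 0 * FreeGroup.of 1)⁻¹,
   FreeGroup.of 3 * FreeGroup.of 0 * (FreeGroup.of 3)⁻¹ * (FreeGroup.of 1 * FreeGroup.of 0)⁻¹,
   FreeGroup.of 3 * FreeGroup.of 2 * (FreeGroup.of 3)⁻¹ * FreeGroup.of 2,
   FreeGroup.of 2 ^ (3 * r)}

end Pool.Agent.Lib.H91Per
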