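import Pool.Agent.Lib.H91PerQB
import Pool.Agent.Lib.H91PerDefs

/-! `C_m × Q(8n; k, l)` has a balanced presentation. -/

namespace Pool.Agent.Lib.H91Per
open Pool.Agent.Lib.H91PerQA Pool.Agent.Lib.H91PerQB

/-- the four relators -/
def relQ (A B C s : ℤ) : Fin 4 → FreeGroup (Fin 4) :=
  ![FreeGroup.of 1 * FreeGroup.of 1 * (FreeGroup.of 0 ^ (B * C))⁻¹,
    FreeGroup.of 2 * FreeGroup.of 2 * (FreeGroup.of 0 ^ (C * A))⁻¹,
    FreeGroup.of 3 * FreeGroup.of 3 * (FreeGroup.of 0 ^ (A * B))⁻¹,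
    FreeGroup.of 1 * FreeGroup.of 2 * FreeGroup.of 3 * (FreeGroup.of 0 ^ s)⁻¹]

theorem lift_of {α : Type} (R : Set (FreeGroup α)) :
    ∀ x ∈ R, FreeGroup.lift (PresentedGroup.of (rels := R)) x = 1 := fun x hx => by
  have : FreeGroup.lift (PresentedGroup.of (rels := R)) = PresentedGroup.mk R := by
    ext a; simp [PresentedGroup.of]
  rw [this]; exact PresentedGroup.one_of_mem hx

theorem relQ_iff {H : Type*} [Group H] (A B C s : ℤ) (f : Fin 4 → H) :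
    (∀ x ∈ Set.range (relQ A B C s), FreeGroup.lift f x = 1) ↔
      f 1 * f 1 = f 0 ^ (B * C) ∧ f 2 * f 2 = f 0 ^ (C * A) ∧ f 3 * f 3 = f 0 ^ (A * B) ∧
        f 1 * f 2 * f 3 = f 0 ^ s := by
  simp [relQ, mul_inv_eq_one]
  tauto

theorem milnor_iff {H : Type*} [Group H] (n k l : ℕ) (r : ℤ) (f : Fin 3 → H) :
    (∀ x ∈ milnorRels n k l r, FreeGroup.lift f x = 1) ↔
      f 0 * f 0 = f 0 * f 1 * (f 0 * f 1) ∧ f 0 * f 0 = f 1 ^ (2 * (n : ℤ)) ∧
        f 2 ^ ((k : ℤ) * l) = 1 ∧ f 0 * f 2 * (f 0)⁻¹ = f 2 ^ r ∧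
        f 1 * f 2 * (f 1)⁻¹ = (f 2)⁻¹ := by
  simp only [milnorRels, Set.mem_insert_iff, Set.mem_singleton_iff, forall_eq_or_imp, forall_eq,
    map_mul, map_inv, map_zpow, FreeGroup.lift_apply_of,
    mul_eq_one_iff_eq_inv, ← zpow_natCast, Nat.cast_mul, Nat.cast_ofNat, inv_inv, zpow_two]

theorem mem_of_coprime {H : Type*} [Group H] (S : Subgroup H) {g : H} {a b : ℤ} (ha : g ^ a ∈ S)
    (hb : g ^ b ∈ S) (hc : IsCoprime a b) : g ∈ S := by
  obtain ⟨p, q, hpq⟩ := hc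
  have : g = (g ^ a) ^ p * (g ^ b) ^ q := by
    rw [← zpow_mul, ← zpow_mul, ← zpow_add, mul_comm a, mul_comm b, hpq, zpow_one]
  rw [this]
  exact S.mul_mem (S.zpow_mem ha p) (S.zpow_mem hb q)

theorem central_of_gens {α : Type} {R : Set (FreeGroup α)} {μ : PresentedGroup R}
    (h : ∀ a, Commute μ (PresentedGroup.of a)) (p : PresentedGroup R) : Commute μ p :=
  PresentedGroup.generated_by R (Subgroup.centralizer {μ})
    (fun a => Subgroup.mem_centralizer_singleton_iff.2 (h a).symm.eq) p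
    |> fun hp => (Subgroup.mem_centralizer_singleton_iff.1 hp).symm

theorem mu0_central {m : ℕ} {G : Type*} [Group G] (g : Multiplicative (ZMod m) × G) :
    Commute ((Multiplicative.ofAdd 1, 1) : Multiplicative (ZMod m) × G) g := by
  show _ = _
  ext
  · simp [add_comm]
  · simp

theorem mu0_pow {m : ℕ} {G : Type*} [Group G] {M : ℤ} (hM : (m : ℤ) ∣ M) :
    ((Multiplicative.ofAdd 1, 1) : Multiplicative (ZMod m) × G) ^ M = 1 := by
  ext
  · simp [← ofAdd_zsmul, (ZMod.intCast_zmod_eq_zero_iff_dvd M m).2 hM]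
  · simp

theorem untwist {H : Type*} [Group H] {T g μ : H} (hc : ∀ p, Commute μ p) {e : ℤ}
    (h : g⁻¹ * T ^ e * g = (T ^ e)⁻¹ * μ ^ (4 * e)) (f : ℤ) :
    (g * μ⁻¹ ^ f)⁻¹ * (T * μ⁻¹ ^ (2 : ℤ)) ^ e * (g * μ⁻¹ ^ f) = ((T * μ⁻¹ ^ (2 : ℤ)) ^ e)⁻¹ := by
  have p : (T * μ⁻¹ ^ (2 : ℤ)) ^ e = T ^ e * μ ^ (-(2 * e)) := by
    rw [((hc T).inv_left.zpow_left 2).symm.mul_zpow]; group
  have e1 : (g * μ⁻¹ ^ f)⁻¹ * (T ^ e * μ ^ (-(2 * e))) * (g * μ⁻¹ ^ f) =
      μ ^ f * (g⁻¹ * T ^ e * (μ ^ (-(2 * e)) * g)) * μ ^ (-f) := by group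
  rw [p, e1, ((hc g).zpow_left _).eq, ← mul_assoc (g⁻¹ * T ^ e), h, ((hc _).zpow_left f).eq,
    mul_inv_rev, ← zpow_neg μ, ((hc _).zpow_left _).eq (b := (T ^ e)⁻¹)]
  group

theorem balancedQ (m n k l : ℕ) (r : ℤ) (hk : (8 * n).Coprime k) (hl : (8 * n).Coprime l)
    (hkl : k.Coprime l) (hm : m.Coprime (8 * n * k * l)) (hr1 : r ≡ -1 [ZMOD k])
    (hr2 : r ≡ 1 [ZMOD l]) :
    Balanced (Multiplicative (ZMod m) × PresentedGroup (milnorRels n k l r)) := by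
  have ik : IsCoprime (8 * (n : ℤ)) k := by exact_mod_cast Nat.isCoprime_iff_coprime.2 hk
  have il : IsCoprime (8 * (n : ℤ)) l := by exact_mod_cast Nat.isCoprime_iff_coprime.2 hl
  have ikl : IsCoprime (k : ℤ) l := Nat.isCoprime_iff_coprime.2 hkl
  have im : IsCoprime (m : ℤ) (8 * n * k * l) := by exact_mod_cast Nat.isCoprime_iff_coprime.2 hm
  have odd : ∀ a b : ℤ, IsCoprime (8 * b) a → ∃ i, a = 2 * i + 1 := fun a b ⟨p, q, h⟩ => by
    rcases Int.even_or_odd' a with ⟨i, hi | hi⟩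
    · exfalso; rw [hi] at h
      have : 2 * (p * 4 * b + q * i) = 1 := by linear_combination h
      omega
    · exact ⟨i, hi⟩
  obtain ⟨c, hc⟩ := odd _ _ ik
  obtain ⟨i, hi⟩ := odd _ _ il
  obtain ⟨d, hd⟩ := odd m (n * k * l) (by
    have := im.symm; rwa [show (8 * n * k * l : ℤ) = 8 * (n * k * l) by ring] at this)
  obtain ⟨r1, h1⟩ : ∃ r1 : ℤ, r = -1 + k * r1 := by
    obtain ⟨q, hq⟩ := hr1.symm.dvd; exact ⟨q, by linear_combination hq⟩
  obtain ⟨r2, h2⟩ : ∃ r2 : ℤ, r = 1 + l * r2 := by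
    obtain ⟨q, hq⟩ := hr2.symm.dvd; exact ⟨q, by linear_combination hq⟩
  have c2 : IsCoprime ((l : ℤ) * k) (2 * n) := by
    have a1 : IsCoprime (2 * (n : ℤ)) k :=
      (show IsCoprime (4 * (2 * (n : ℤ))) k by convert ik using 1; ring).of_mul_left_right
    have a2 : IsCoprime (2 * (n : ℤ)) l :=
      (show IsCoprime (4 * (2 * (n : ℤ))) l by convert il using 1; ring).of_mul_left_right
    exact (a2.mul_right a1).symm
  obtain ⟨h, h', hh⟩ := id c2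
  obtain ⟨p, q, hpq⟩ := ikl
  obtain ⟨g', g0, hg0⟩ := id im
  have hmA : IsCoprime (m : ℤ) n := im.of_mul_right_left.of_mul_right_left.of_mul_right_right
  have hmC : IsCoprime (m : ℤ) k := im.of_mul_right_left.of_mul_right_right
  have hmB : IsCoprime (m : ℤ) l := im.of_mul_right_right
  obtain ⟨s, hs⟩ : ∃ s : ℤ, 2 * s = n * l + l * k + k * n + m :=
    ⟨n * (i + c + 1) + 2 * i * c + i + c + 1 + d, by rw [hc, hi, hd]; ring⟩
  obtain ⟨y, z, hb⟩ : ∃ y z : ℤ, h * (l * k) + y * (k * n) + z * (n * l) = 1 :=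
    ⟨2 * h' * p, 2 * h' * q, by linear_combination hh + (2 * h' * n) * hpq⟩
  obtain ⟨g, hg⟩ : ∃ g : ℤ, 4 * (n * l * k) * g + m * g' = 1 :=
    ⟨2 * g0, by linear_combination hg0⟩
  refine ⟨4, relQ n l k s, ?_⟩
  obtain ⟨hu, hv, hw, hr⟩ := (relQ_iff n l k s _).1 (lift_of _)
  obtain ⟨m1, m2, m3, m4, m5⟩ := (milnor_iff n k l r _).1 (lift_of _)
  have gen := PresentedGroup.generated_by (Set.range (relQ n l k s))
  have cen := @central_of_gens _ (Set.range (relQ n l k s))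
  set T : PresentedGroup (Set.range (relQ n l k s)) := PresentedGroup.of 0 with eT
  set u : PresentedGroup (Set.range (relQ n l k s)) := PresentedGroup.of 1 with eu
  set v : PresentedGroup (Set.range (relQ n l k s)) := PresentedGroup.of 2 with ev
  set w : PresentedGroup (Set.range (relQ n l k s)) := PresentedGroup.of 3 with ew
  set X : PresentedGroup (milnorRels n k l r) := PresentedGroup.of 0 with eX
  set Y : PresentedGroup (milnorRels n k l r) := PresentedGroup.of 1 with eY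
  set Z : PresentedGroup (milnorRels n k l r) := PresentedGroup.of 2 with eZ
  obtain ⟨hZ, va, ub, uc, vc⟩ := core hu hv hw hr hs hb hmA hmB hmC hg
  obtain ⟨μ, eμ⟩ : ∃ μ, μ = T ^ ((n : ℤ) * l * k * (2 * g)) := ⟨_, rfl⟩
  rw [← eμ] at va ub uc vc
  have μm : μ ^ (m : ℤ) = 1 := by
    rw [eμ, ← zpow_mul]; simpa using per (b := 0) hZ g (by ring)
  have μc : ∀ p, Commute μ p := by
    have sq : ∀ (a : PresentedGroup (Set.range (relQ n l k s))) (e f : ℤ), a * a = T ^ e →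
        (n : ℤ) * l * k * (2 * g) = e * f → Commute μ a := fun a e f ha he => by
      rw [eμ, he, zpow_mul, ← ha]
      exact ((Commute.refl a).mul_left (Commute.refl a)).zpow_left _
    refine cen fun a => ?_
    fin_cases a
    · rw [eμ]; exact Commute.zpow_self T _
    · exact sq u _ (n * (2 * g)) hu (by ring)
    · exact sq v _ (l * (2 * g)) hv (by ring)
    · exact sq w _ (k * (2 * g)) hw (by ring)
  obtain ⟨nu, nv, nw, nr⟩ := twist (μ := μ⁻¹) hu hv hw hr hs (fun p => (μc p).inv_left)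
    (by rw [inv_zpow, μm, inv_one])
  have nZ : (T * μ⁻¹ ^ (2 : ℤ)) ^ ((n : ℤ) * l * k * 2) = 1 := by
    rw [((μc T).inv_left.zpow_left 2).symm.mul_zpow, eμ, ← zpow_neg, ← zpow_mul, ← zpow_mul,
      ← zpow_add]
    simpa using per (b := 0) hZ g' (by linear_combination (-(2 * n * l * k : ℤ)) * hg)
  obtain ⟨k1, k2, k3, k4, k5⟩ := toMilnor nu nv nw nr hb nZ (untwist μc va _) (untwist μc ub _)
    (untwist μc uc _) (untwist μc vc _) hi hc h1 h2 rfl
  let ψ : PresentedGroup (milnorRels n k l r) →* PresentedGroup (Set.range (relQ n l k s)) :=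
    PresentedGroup.toGroup (f := ![v * μ⁻¹ ^ ((k : ℤ) * n) * (T * μ⁻¹ ^ (2 : ℤ)) ^
        (i * (k * n) + (-c - z * s) * (n * l)), u * μ⁻¹ ^ ((l : ℤ) * k),
        (T * μ⁻¹ ^ (2 : ℤ)) ^ (2 * (n : ℤ))])
      ((milnor_iff n k l r _).2 ⟨k1, k2, k3, k4, k5⟩)
  have ψX : ψ X = v * μ⁻¹ ^ ((k : ℤ) * n) * (T * μ⁻¹ ^ (2 : ℤ)) ^
      (i * (k * n) + (-c - z * s) * (n * l)) := PresentedGroup.toGroup.of _
  have ψY : ψ Y = u * μ⁻¹ ^ ((l : ℤ) * k) := PresentedGroup.toGroup.of _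
  have ψZ : ψ Z = (T * μ⁻¹ ^ (2 : ℤ)) ^ (2 * (n : ℤ)) := PresentedGroup.toGroup.of _
  -- the other direction
  obtain ⟨T0, eT0⟩ : ∃ T0, T0 = (Y * Y) ^ h * Z ^ h' := ⟨_, rfl⟩
  obtain ⟨v0, ev0⟩ : ∃ v0, v0 = X * (T0 ^ (i * (k * n) + (-c - z * s) * (n * l)))⁻¹ := ⟨_, rfl⟩
  obtain ⟨o1, o2, o3, o4, o5⟩ := ofMilnor (s := s) m1 m2 m3 m4 m5 hb hh hi hc h1 h2 eT0 ev0
  let ι : PresentedGroup (milnorRels n k l r) →*
    Multiplicative (ZMod m) × PresentedGroup (milnorRels n k l r) := MonoidHom.inr _ _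
  obtain ⟨μ0, eμ0⟩ : ∃ μ0 : Multiplicative (ZMod m) × PresentedGroup (milnorRels n k l r),
    μ0 = (Multiplicative.ofAdd 1, 1) := ⟨_, rfl⟩
  have μ0c : ∀ p, Commute μ0 p := by rw [eμ0]; exact mu0_central
  have μ0m : μ0 ^ (m : ℤ) = 1 := by rw [eμ0]; exact mu0_pow dvd_rfl
  obtain ⟨t1, t2, t3, t4⟩ := twist (T := ι T0) (u := ι Y) (v := ι v0) (w := ι (v0⁻¹ * Y⁻¹ * T0 ^ s))
    (μ := μ0) (by rw [← map_mul, o1, map_zpow]) (by rw [← map_mul, o2, map_zpow])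
    (by rw [← map_mul, o3, map_zpow])
    (by rw [← map_mul, ← map_mul, ← map_zpow]; congr 1; group) hs μ0c μ0m
  let φ : PresentedGroup (Set.range (relQ n l k s)) →*
      Multiplicative (ZMod m) × PresentedGroup (milnorRels n k l r) :=
    PresentedGroup.toGroup (f := ![ι T0 * μ0 ^ (2 : ℤ), ι Y * μ0 ^ ((l : ℤ) * k),
        ι v0 * μ0 ^ ((k : ℤ) * n), ι (v0⁻¹ * Y⁻¹ * T0 ^ s) * μ0 ^ ((n : ℤ) * l)])
      ((relQ_iff n l k s _).2 ⟨t1, t2, t3, t4⟩)
  have φT : φ T = ι T0 * μ0 ^ (2 : ℤ) := PresentedGroup.toGroup.of _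
  have φu : φ u = ι Y * μ0 ^ ((l : ℤ) * k) := PresentedGroup.toGroup.of _
  have φv : φ v = ι v0 * μ0 ^ ((k : ℤ) * n) := PresentedGroup.toGroup.of _
  have φμ : φ μ = μ0 := by
    rw [eμ, map_zpow, φT, ((μ0c _).zpow_left 2).symm.mul_zpow, ← map_zpow,
      per (b := 0) o4 g (by ring), ← zpow_mul,
      per (b := 1) μ0m (-g') (by linear_combination hg)]
    simp
  have φT0 : φ (T * μ⁻¹ ^ (2 : ℤ)) = ι T0 := by
    rw [map_mul, map_zpow, map_inv, φT, φμ]; group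
  refine assemble m μ μm μc ψ φ (by rw [φμ, eμ0]) ?_ ?_
  · have : φ.comp ψ = ι := by
      refine PresentedGroup.ext fun a => ?_
      fin_cases a
      · show φ (ψ X) = ι X
        rw [ψX, map_mul, map_zpow, φT0, map_mul, map_zpow, map_inv, φv, φμ, ev0, map_mul, map_inv,
          map_zpow]
        group
      · show φ (ψ Y) = ι Y
        rw [ψY, map_mul, map_zpow, map_inv, φu, φμ]; group
      · show φ (ψ Z) = ι Z
        rw [ψZ, map_zpow, φT0, ← map_zpow, o5]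
    intro a
    exact DFunLike.congr_fun this a
  · intro S hμ hψ
    have sY := hψ Y
    have sZ := hψ Z
    have sX := hψ X
    rw [ψY] at sY
    rw [ψZ] at sZ
    rw [ψX] at sX
    have sT0 : T * μ⁻¹ ^ (2 : ℤ) ∈ S :=
      mem_of_coprime S (by rw [← nu]; exact S.mul_mem sY sY) sZ c2
    have un : ∀ (a : PresentedGroup (Set.range (relQ n l k s))) (e : ℤ), a * μ⁻¹ ^ e ∈ S → a ∈ S :=
      fun a e ha => (S.mul_mem_cancel_right (S.zpow_mem (S.inv_mem hμ) e)).1 ha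
    have sT := un _ _ sT0
    have su := un _ _ sY
    have sv := un _ _ ((S.mul_mem_cancel_right (S.zpow_mem sT0 _)).1 sX)
    have sw : w ∈ S := by
      have : w = v⁻¹ * u⁻¹ * T ^ s := by rw [← hr]; group
      rw [this]
      exact S.mul_mem (S.mul_mem (S.inv_mem sv) (S.inv_mem su)) (S.zpow_mem sT _)
    refine gen S fun a => ?_
    fin_cases a
    exacts [sT, su, sv, sw]

end Pool.Agent.Lib.H91Per
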