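import Pool.Agent.Lib.H91PerPA
import Pool.Agent.Lib.H91PerQ

/-! `C_m × P''_(48r)` has a balanced presentation. -/

namespace Pool.Agent.Lib.H91Per
open Pool.Agent.Lib.H91PerQA Pool.Agent.Lib.H91PerQB Pool.Agent.Lib.H91PerPA

section
variable {H : Type*} [Group H]

theorem toOct {T t q : H} {e r : ℤ} (hq : q * q = T ^ r) (ht : t ^ (3 : ℤ) = T ^ (2 : ℤ))
    (hs : t ^ e * q * (t ^ e * q) = T ^ (2 * r))
    (hd : q⁻¹ * T ^ (2 : ℤ) * q = (T ^ (2 : ℤ))⁻¹) (h4 : T ^ (4 * r) = 1) {x y z w : H}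
    (hx : x = q * q) (hy : y = t ^ e * (q * q) * (t ^ e)⁻¹) (hz : z = t ^ e * (T ^ (2 * r)) ^ e)
    (hw : w = y * q * t ^ e) (hr : Odd r) :
    x * x = x * y * (x * y) ∧ x * x = y * y ∧ x * x = w * w ∧ z * x * z⁻¹ = y ∧
      z * y * z⁻¹ = x * y ∧ w * x * w⁻¹ = y * x ∧ w * z * w⁻¹ = z⁻¹ ∧ z ^ (3 * r) = 1 := by
  have Zt : T ^ (2 * r) = t ^ (3 * r) := by rw [zpow_mul, zpow_mul, ht]
  have Zq : T ^ (2 * r) = q * q * (q * q) := by rw [hq]; group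
  have ZZ : T ^ (2 * r) * T ^ (2 * r) = 1 := by rw [← h4]; group
  have dq : Commute (q * q) (T ^ (2 : ℤ)) := by rw [hq]; exact Commute.zpow_zpow_self T _ _
  generalize T ^ (2 * r) = Z at *
  generalize T ^ (2 : ℤ) = d at *
  have td : Commute t d := by rw [← ht]; exact Commute.self_zpow t _
  have zt : Commute Z t := by rw [Zt]; exact Commute.zpow_self t _
  have qq : Commute (q * q) q := (Commute.refl q).mul_left (Commute.refl q)
  have zq : Commute Z q := by rw [Zq]; exact qq.mul_left qq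
  have a3 : t ^ e * t ^ e * t ^ e = d ^ e := by rw [← ht]; group
  have ar : (t ^ e) ^ (3 * r) = Z ^ e := by rw [Zt, ← zpow_mul, ← zpow_mul, mul_comm]
  have za : Commute Z (t ^ e) := zt.zpow_right e
  have p3 := prod3 hs za zq (d := (d ^ e)⁻¹) (by rw [a3, ← cj, hd, inv_zpow])
    (td.symm.zpow_zpow e e).inv_left (dq.symm.zpow_left e).inv_left
  have a3x : Commute (t ^ e * t ^ e * t ^ e) (q * q) := by rw [a3]; exact dq.symm.zpow_left e
  rw [a3, mul_inv_cancel, inv_one, mul_one, ZZ, one_mul, ← hy, ← hx] at p3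
  rw [← hx] at Zq a3x hy
  generalize t ^ e = a at *
  have zx : Commute Z x := by rw [hx]; exact zq.mul_right zq
  have sq : ∀ p : H, p * p = Z → a * p * a⁻¹ * (a * p * a⁻¹) = Z := fun p hp => by
    calc _ = a * (p * p) * a⁻¹ := by group
      _ = Z := by rw [hp, ← za.eq]; group
  have yy : y * y = Z := by rw [hy]; exact sq _ Zq.symm
  have k1 : x * y = a * y * a⁻¹ := by
    have := sq _ yy
    rw [← p3] at this
    exact (mul_right_cancel this).symm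
  have k2 : a * (x * y) * a⁻¹ = x := by
    calc a * (x * y) * a⁻¹ = a * a * a * x * (a * a * a)⁻¹ := by rw [k1, hy]; group
      _ = x := by rw [a3x.eq]; group
  have k3 : y * (x * y) = x := by
    calc y * (x * y) = (a * x * a⁻¹) * (a * y * a⁻¹) := by rw [← hy, ← k1]
      _ = a * (x * y) * a⁻¹ := by group
      _ = x := k2
  have k4 : x * y * x = y := by
    calc x * y * x = (a * y * a⁻¹) * (a * (x * y) * a⁻¹) := by rw [← k1, k2]
      _ = a * (y * (x * y)) * a⁻¹ := by group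
      _ = y := by rw [k3, hy]
  have ba : q * a * q⁻¹ = a⁻¹ * x := by
    calc q * a * q⁻¹ = a⁻¹ * (a * q * (a * q)) * (q * q)⁻¹ := by group
      _ = a⁻¹ * x := by rw [hs, Zq, ← hx]; group
  have bx : q * x * q⁻¹ = x := by rw [hx]; group
  have k5 : a⁻¹ * x * a = x * y := by nth_rewrite 1 [← k2]; group
  have by' : q * y * q⁻¹ = x * y := by
    calc q * y * q⁻¹ = (q * a * q⁻¹) * (q * x * q⁻¹) * (q * a * q⁻¹)⁻¹ := by rw [hy]; group
      _ = a⁻¹ * x * a := by rw [ba, bx]; group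
      _ = _ := k5
  have wa : w * a * w⁻¹ = a⁻¹ := by
    calc w * a * w⁻¹ = y * (q * a * q⁻¹) * y⁻¹ := by rw [hw]; group
      _ = a⁻¹ * ((a * y * a⁻¹) * x) * y⁻¹ := by rw [ba]; group
      _ = a⁻¹ := by rw [← k1, k4]; group
  have zy : Commute Z y := by rw [← yy]; exact (Commute.refl y).mul_left (Commute.refl y)
  have zw : Commute Z w := by rw [hw]; exact (zy.mul_right zq).mul_right za
  have EE : Z ^ e * Z ^ e = 1 := by rw [← (Commute.refl Z).mul_zpow, ZZ, one_zpow]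
  have cz : ∀ p, Commute Z p → z * p * z⁻¹ = a * p * a⁻¹ := fun p hp => by
    calc z * p * z⁻¹ = a * (Z ^ e * p) * (Z ^ e)⁻¹ * a⁻¹ := by rw [hz]; group
      _ = _ := by rw [(hp.zpow_left e).eq]; group
  refine ⟨?_, by rw [yy, Zq], ?_, by rw [cz _ zx, hy], by rw [cz _ zy, k1], ?_, ?_, ?_⟩
  · calc x * x = x * (y * (x * y)) := by rw [k3]
      _ = _ := by group
  · have : w * w = y * y := by
      calc w * w = y * (q * a * q⁻¹) * (q * y * q⁻¹) * (q * q) * a := by rw [hw]; group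
        _ = y * (a⁻¹ * (x * (x * y * x)) * a) := by rw [ba, by', ← hx]; group
        _ = y * y := by rw [k4, k1]; group
    rw [this, yy, Zq]
  · calc w * x * w⁻¹ = y * (q * (a * x * a⁻¹) * q⁻¹) * y⁻¹ := by rw [hw]; group
      _ = y * x := by rw [← hy, by']; group
  · calc w * z * w⁻¹ = w * a * (Z ^ e * w⁻¹) := by rw [hz]; group
      _ = (w * a * w⁻¹) * Z ^ e := by rw [(zw.inv_right.zpow_left e).eq]; group
      _ = z⁻¹ := by
        rw [wa, hz, mul_inv_rev, inv_eq_of_mul_eq_one_right EE, (za.inv_right.zpow_left e).eq]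
  · obtain ⟨k, hk⟩ := hr
    rw [hz, (za.zpow_left e).symm.mul_zpow, ar, ← zpow_one_add,
      show 1 + 3 * r = 2 * (3 * k + 2) by rw [hk]; ring, zpow_mul, zpow_two, EE, one_zpow]

theorem ofOct {x y z w : H} {e r a i j : ℤ} (m1 : x * x = x * y * (x * y)) (m2 : x * x = y * y)
    (m3 : x * x = w * w) (m4 : z * x * z⁻¹ = y) (m5 : z * y * z⁻¹ = x * y)
    (m6 : w * x * w⁻¹ = y * x) (m7 : w * z * w⁻¹ = z⁻¹) (m8 : z ^ (3 * r) = 1)
    (ha : r = 2 * a + 1) (hi : i * e + j * (3 * r) = 1) {T t q : H}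
    (ht : t = x * x * z ^ i) (hT : T = (t ^ (3 : ℤ)) ^ (-a) * x) (hq : q = y⁻¹ * w * (t ^ e)⁻¹) :
    q * q = T ^ r ∧ t ^ (3 : ℤ) = T ^ (2 : ℤ) ∧ t ^ e * q * (t ^ e * q) = T ^ (2 * r) ∧
      q⁻¹ * T ^ (2 : ℤ) * q = (T ^ (2 : ℤ))⁻¹ ∧ q * q = x ∧ t ^ e * x * (t ^ e)⁻¹ = y ∧
      t ^ e * (T ^ (2 * r)) ^ e = z := by
  obtain ⟨ε, hε⟩ : ∃ ε, ε = x * x := ⟨_, rfl⟩
  have k3 : y * (x * y) = x := by
    have : x * x = x * (y * (x * y)) := by rw [m1]; group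
    exact (mul_left_cancel this).symm
  have xy : x * y * x⁻¹ = y⁻¹ := by
    calc x * y * x⁻¹ = y⁻¹ * (y * (x * y)) * x⁻¹ := by group
      _ = y⁻¹ := by rw [k3]; group
  have εx : Commute ε x := by rw [hε]; exact (Commute.refl x).mul_left (Commute.refl x)
  have εy : Commute ε y := by rw [hε, m2]; exact (Commute.refl y).mul_left (Commute.refl y)
  have εw : Commute ε w := by rw [hε, m3]; exact (Commute.refl w).mul_left (Commute.refl w)
  have εz : Commute ε z := by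
    have : z * ε * z⁻¹ = ε := by
      calc z * ε * z⁻¹ = (z * x * z⁻¹) * (z * x * z⁻¹) := by rw [hε]; group
        _ = ε := by rw [m4, ← m2, hε]
    show _ = _
    nth_rewrite 1 [← this]; group
  have εε : ε * ε = 1 := by
    have e1 : x * ε * x⁻¹ = ε := by rw [← εx.eq]; group
    have e2 : x * ε * x⁻¹ = ε⁻¹ := by
      calc x * ε * x⁻¹ = (x * y * x⁻¹) * (x * y * x⁻¹) := by rw [hε, m2]; group
        _ = ε⁻¹ := by rw [xy, hε, m2]; group
    rw [e1] at e2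
    nth_rewrite 1 [e2]; group
  have ε2 : ε ^ (2 : ℤ) = 1 := by rw [zpow_two, εε]
  have k2 : z * (x * y) * z⁻¹ = x := by
    calc z * (x * y) * z⁻¹ = (z * x * z⁻¹) * (z * y * z⁻¹) := by group
      _ = x := by rw [m4, m5, k3]
  have z3 : z ^ (3 : ℤ) = z * z * z := by rw [← zpow_two, ← zpow_add_one]; rfl
  have z3x : Commute (z ^ (3 : ℤ)) x := by
    show _ = _
    calc z ^ (3 : ℤ) * x = z * (z * (z * x * z⁻¹) * z⁻¹) * z⁻¹ * (z * z * z) := by rw [z3]; group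
      _ = _ := by rw [m4, m5, k2, z3]
  have z3y : Commute (z ^ (3 : ℤ)) y := by
    rw [← m4]
    exact ((Commute.zpow_self z 3).mul_right z3x).mul_right (Commute.zpow_self z 3).inv_right
  have wy : w * y * w⁻¹ = y⁻¹ := by
    calc w * y * w⁻¹ = (w * z * w⁻¹) * (w * x * w⁻¹) * (w * z * w⁻¹)⁻¹ := by rw [← m4]; group
      _ = z⁻¹ * ((z * x * z⁻¹) * (z * (x * y) * z⁻¹)) * z := by rw [m7, m6, m4, k2]; group
      _ = (x * x) * y := by group
      _ = y⁻¹ := by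
        rw [m2, eq_inv_iff_mul_eq_one, ← εε, hε, m2]; group
  rw [← hε] at ht
  have tp : ∀ n : ℤ, t ^ n = ε ^ n * z ^ (i * n) := fun n => by
    rw [ht, (εz.zpow_right i).mul_zpow, ← zpow_mul]
  have te : t ^ e = ε ^ e * z := by
    rw [tp, per (a := i * e) (b := 1) m8 (-j) (by linear_combination hi), zpow_one]
  have t3 : t ^ (3 : ℤ) = ε * (z ^ (3 : ℤ)) ^ i := by
    rw [tp, per (a := 3) (b := 1) ε2 1 (by ring), zpow_one, ← zpow_mul, mul_comm i]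
  have t3r : (t ^ (3 : ℤ)) ^ r = ε := by
    rw [← zpow_mul, tp, per (a := 3 * r) (b := 1) ε2 (3 * a + 1) (by rw [ha]; ring),
      per (a := i * (3 * r)) (b := 0) m8 i (by ring)]
    simp
  have dx : Commute (t ^ (3 : ℤ)) x := by rw [t3]; exact εx.mul_left (z3x.zpow_left i)
  have dy : Commute (t ^ (3 : ℤ)) y := by rw [t3]; exact εy.mul_left (z3y.zpow_left i)
  have wt : w⁻¹ * t * w = t⁻¹ := by
    have e1 : w⁻¹ * z * w = z⁻¹ := by rw [← conj_sw (by rw [← m3, ← hε]; exact εz), m7]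
    calc w⁻¹ * t * w = (w⁻¹ * ε * w) * (w⁻¹ * z * w) ^ i := by rw [ht, cj]; group
      _ = t⁻¹ := by
        rw [cfix εw.symm, e1, ht, mul_inv_rev, inv_eq_of_mul_eq_one_right εε, inv_zpow,
          (εz.zpow_right i).inv_right.eq]
  have wt' : ∀ n : ℤ, w⁻¹ * t ^ n * w = (t ^ n)⁻¹ := fun n => by rw [← cj, wt, inv_zpow]
  have εt : Commute ε t := by rw [ht]; exact (Commute.refl ε).mul_right (εz.zpow_right i)
  have wa : w * (t ^ e)⁻¹ * w⁻¹ = t ^ e := by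
    rw [conj_sw (by rw [← m3, ← hε]; exact (εt.zpow_right e).inv_right), ← zpow_neg, wt',
      zpow_neg, inv_inv]
  have ca : ∀ p, Commute ε p → t ^ e * p * (t ^ e)⁻¹ = z * p * z⁻¹ := fun p hp => by
    have hp' : Commute (ε ^ e) (z * p * z⁻¹) :=
      ((εz.mul_right hp).mul_right εz.inv_right).zpow_left e
    calc t ^ e * p * (t ^ e)⁻¹ = ε ^ e * (z * p * z⁻¹) * (ε ^ e)⁻¹ := by rw [te]; group
      _ = _ := by rw [hp'.eq]; group
  have T2 : T ^ (2 : ℤ) = t ^ (3 : ℤ) := by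
    rw [hT, (dx.zpow_left _).mul_zpow, zpow_two x, ← hε, ← t3r, ha]; group
  have Tr : T ^ r = x := by
    rw [hT, (dx.zpow_left _).mul_zpow, ← zpow_mul, mul_comm (-a), zpow_mul, t3r, hε, ← zpow_two, ha]
    group
  have T2r : T ^ (2 * r) = ε := by rw [zpow_mul, T2, t3r]
  have qq : q * q = x := by
    calc q * q = y⁻¹ * (w * (t ^ e)⁻¹ * w⁻¹) * (w * y * w⁻¹)⁻¹ * (w * w) * (t ^ e)⁻¹ := by
          rw [hq]; group
      _ = y⁻¹ * (t ^ e * y * (ε * (t ^ e)⁻¹)) := by rw [wa, wy, ← m3, ← hε]; group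
      _ = y⁻¹ * (t ^ e * y * (t ^ e)⁻¹) * ε := by rw [(εt.zpow_right e).inv_right.eq]; group
      _ = (y * y)⁻¹ * (y * (x * y)) * ε := by rw [ca _ εy, m5]; group
      _ = x := by rw [k3, ← m2, hε]; group
  refine ⟨by rw [qq, Tr], T2.symm, ?_, ?_, qq, by rw [ca _ εx, m4], ?_⟩
  · calc t ^ e * q * (t ^ e * q) = t ^ e * (y⁻¹ * (w * y * w⁻¹)⁻¹ * (w * w) * (t ^ e)⁻¹) := by
          rw [hq]; group
      _ = _ := by rw [wy, ← m3, ← hε, T2r, inv_inv, inv_mul_cancel, one_mul,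
          (εt.zpow_right e).inv_right.eq]; group
  · calc q⁻¹ * T ^ (2 : ℤ) * q = t ^ e * (w⁻¹ * (y * t ^ (3 : ℤ) * y⁻¹) * w) * (t ^ e)⁻¹ := by
          rw [hq, T2]; group
      _ = _ := by rw [← dy.eq, mul_inv_cancel_right, wt', T2]; group
  · rw [T2r, te, mul_assoc, ← (εz.zpow_left e).eq, ← mul_assoc, ← (Commute.refl ε).mul_zpow, εε]
    simp

end

/-- the three relators -/
def relP (e r : ℤ) : Fin 3 → FreeGroup (Fin 3) :=
  ![FreeGroup.of 2 * FreeGroup.of 2 * (FreeGroup.of 0 ^ r)⁻¹,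
    FreeGroup.of 1 ^ (3 : ℤ) * (FreeGroup.of 0 ^ (2 : ℤ))⁻¹,
    FreeGroup.of 1 ^ e * FreeGroup.of 2 * (FreeGroup.of 1 ^ e * FreeGroup.of 2) *
      (FreeGroup.of 0 ^ (2 * r))⁻¹]

theorem relP_iff {H : Type*} [Group H] (e r : ℤ) (f : Fin 3 → H) :
    (∀ x ∈ Set.range (relP e r), FreeGroup.lift f x = 1) ↔
      f 2 * f 2 = f 0 ^ r ∧ f 1 ^ (3 : ℤ) = f 0 ^ (2 : ℤ) ∧
        f 1 ^ e * f 2 * (f 1 ^ e * f 2) = f 0 ^ (2 * r) := by
  simp only [Set.forall_mem_range, Fin.forall_fin_succ, relP, Matrix.cons_val_zero,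
    Matrix.cons_val_succ, map_mul, map_inv, map_zpow, FreeGroup.lift_apply_of, mul_inv_eq_one,
    IsEmpty.forall_iff, and_true]

theorem oct_iff {H : Type*} [Group H] (r : ℕ) (f : Fin 4 → H) :
    (∀ x ∈ octRels r, FreeGroup.lift f x = 1) ↔
      f 0 * f 0 = f 0 * f 1 * (f 0 * f 1) ∧ f 0 * f 0 = f 1 * f 1 ∧ f 0 * f 0 = f 3 * f 3 ∧
        f 2 * f 0 * (f 2)⁻¹ = f 1 ∧ f 2 * f 1 * (f 2)⁻¹ = f 0 * f 1 ∧
        f 3 * f 0 * (f 3)⁻¹ = f 1 * f 0 ∧ f 3 * f 2 * (f 3)⁻¹ = (f 2)⁻¹ ∧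
        f 2 ^ (3 * (r : ℤ)) = 1 := by
  simp only [octRels, Set.mem_insert_iff, Set.mem_singleton_iff, forall_eq_or_imp, forall_eq,
    map_mul, map_inv, map_zpow, FreeGroup.lift_apply_of,
    mul_eq_one_iff_eq_inv, ← zpow_natCast, Nat.cast_mul, Nat.cast_ofNat, inv_inv, zpow_two]

theorem balancedP (m r : ℕ) (hr : Odd r) (hm : m.Coprime (6 * r)) :
    Balanced (Multiplicative (ZMod m) × PresentedGroup (octRels r)) := by
  have im : IsCoprime (m : ℤ) (6 * r) := by exact_mod_cast Nat.isCoprime_iff_coprime.2 hm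
  have hr' : Odd (r : ℤ) := by exact_mod_cast hr
  obtain ⟨a, ha⟩ := id hr'
  obtain ⟨d, hd⟩ : ∃ d : ℤ, (m : ℤ) = 2 * d + 1 := by
    obtain ⟨p, q, h⟩ := im
    rcases Int.even_or_odd' (m : ℤ) with ⟨i, hi | hi⟩
    · exfalso; rw [hi] at h
      have : 2 * (p * i + q * 3 * r) = 1 := by linear_combination h
      omega
    · exact ⟨i, hi⟩
  obtain ⟨M, e, hMm, he⟩ : ∃ M e : ℤ, (M = m ∨ M = -m) ∧ 4 * e = M + 3 * r := by
    rcases Int.even_or_odd' (a + d) with ⟨i, hi | hi⟩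
    · exact ⟨m, a + i + 1, Or.inl rfl, by omega⟩
    · exact ⟨-m, 2 * a - i, Or.inr rfl, by omega⟩
  have hM : IsCoprime M (6 * r) := by
    rcases hMm with rfl | rfl
    exacts [im, im.neg_left]
  have hdv : (m : ℤ) ∣ M := by
    rcases hMm with rfl | rfl
    exacts [dvd_rfl, dvd_rfl.neg_right]
  obtain ⟨g', g, hg⟩ : IsCoprime M 24 := by
    have h6 : IsCoprime M (2 * 3) := hM.of_mul_right_left
    have h2 := h6.of_mul_right_left
    exact (h2.mul_right (h2.mul_right h6) : IsCoprime M (2 * (2 * (2 * 3))))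
  replace hg : 24 * g + M * g' = 1 := by linear_combination hg
  have c3 := cop3 he hM
  obtain ⟨i, j, hi⟩ := id c3
  refine ⟨3, relP e r, ?_⟩
  obtain ⟨hq, ht, hs⟩ := (relP_iff e r _).1 (lift_of _)
  obtain ⟨m1, m2, m3, m4, m5, m6, m7, m8⟩ := (oct_iff r _).1 (lift_of _)
  have gen := PresentedGroup.generated_by (Set.range (relP e r))
  have cen := @central_of_gens _ (Set.range (relP e r))
  set T : PresentedGroup (Set.range (relP e r)) := PresentedGroup.of 0 with eT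
  set t : PresentedGroup (Set.range (relP e r)) := PresentedGroup.of 1 with et
  set q : PresentedGroup (Set.range (relP e r)) := PresentedGroup.of 2 with eq
  set X : PresentedGroup (octRels r) := PresentedGroup.of 0 with eX
  set Y : PresentedGroup (octRels r) := PresentedGroup.of 1 with eY
  set Z : PresentedGroup (octRels r) := PresentedGroup.of 2 with eZ
  set W : PresentedGroup (octRels r) := PresentedGroup.of 3 with eW
  obtain ⟨μ, eμ⟩ : ∃ μ, μ = (T ^ (2 : ℤ) * (q⁻¹ * T ^ (2 : ℤ) * q)) ^ g := ⟨_, rfl⟩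
  obtain ⟨c1, c2, c4, μM, vd, h4⟩ := H91PerPA.core hq ht hs he ha hM hg eμ
  have μm : μ ^ (m : ℤ) = 1 := by
    rcases hMm with rfl | rfl
    · exact μM
    · rwa [zpow_neg, inv_eq_one] at μM
  have μc : ∀ p, Commute μ p := by
    refine cen fun b => ?_
    fin_cases b
    exacts [c1, c2, c4]
  obtain ⟨nq, nt, ns⟩ := H91PerPA.twist (μ := μ⁻¹) hq ht hs he (fun p => (μc p).inv_left)
    (by rw [inv_zpow, μM, inv_one])
  have pw : ∀ n : ℤ, (T * μ⁻¹ ^ (6 : ℤ)) ^ n = T ^ n * μ ^ (-(6 * n)) := fun n => by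
    rw [((μc T).inv_left.zpow_left 6).symm.mul_zpow]; group
  have n4 : (T * μ⁻¹ ^ (6 : ℤ)) ^ (4 * (r : ℤ)) = 1 := by rw [pw, h4]; group
  have nd : (q * μ⁻¹ ^ (3 * (r : ℤ)))⁻¹ * (T * μ⁻¹ ^ (6 : ℤ)) ^ (2 : ℤ) * (q * μ⁻¹ ^ (3 * (r : ℤ))) =
      ((T * μ⁻¹ ^ (6 : ℤ)) ^ (2 : ℤ))⁻¹ := by
    have e1 : (q * μ⁻¹ ^ (3 * (r : ℤ)))⁻¹ * (T ^ (2 : ℤ) * μ ^ (-(6 * 2) : ℤ)) *
        (q * μ⁻¹ ^ (3 * (r : ℤ))) =
        μ ^ (3 * (r : ℤ)) * (q⁻¹ * T ^ (2 : ℤ) * (μ ^ (-(6 * 2) : ℤ) * q)) * μ ^ (-(3 * (r : ℤ))) := by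
      group
    rw [pw, e1, ((μc q).zpow_left _).eq, ← mul_assoc (q⁻¹ * T ^ (2 : ℤ)), vd,
      ((μc _).zpow_left (3 * (r : ℤ))).eq, mul_inv_rev, ← zpow_neg μ,
      ((μc _).zpow_left _).eq (b := (T ^ (2 : ℤ))⁻¹)]
    group
  obtain ⟨T1, eT1⟩ : ∃ T1, T1 = T * μ⁻¹ ^ (6 : ℤ) := ⟨_, rfl⟩
  obtain ⟨t1, et1⟩ : ∃ t1, t1 = t * μ⁻¹ ^ (4 : ℤ) := ⟨_, rfl⟩
  obtain ⟨q1, eq1⟩ : ∃ q1, q1 = q * μ⁻¹ ^ (3 * (r : ℤ)) := ⟨_, rfl⟩
  rw [← eT1, ← eq1] at nq nd
  rw [← eT1, ← et1] at nt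
  rw [← eT1, ← et1, ← eq1] at ns
  rw [← eT1] at n4
  have kk := toOct nq nt ns nd n4 rfl rfl rfl rfl hr'
  let ψ : PresentedGroup (octRels r) →* PresentedGroup (Set.range (relP e r)) :=
    PresentedGroup.toGroup (f := ![q1 * q1, t1 ^ e * (q1 * q1) * (t1 ^ e)⁻¹,
        t1 ^ e * (T1 ^ (2 * (r : ℤ))) ^ e, t1 ^ e * (q1 * q1) * (t1 ^ e)⁻¹ * q1 * t1 ^ e])
      ((oct_iff r _).2 kk)
  have ψX : ψ X = q1 * q1 := PresentedGroup.toGroup.of _
  have ψY : ψ Y = t1 ^ e * (q1 * q1) * (t1 ^ e)⁻¹ := PresentedGroup.toGroup.of _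
  have ψZ : ψ Z = t1 ^ e * (T1 ^ (2 * (r : ℤ))) ^ e := PresentedGroup.toGroup.of _
  have ψW : ψ W = t1 ^ e * (q1 * q1) * (t1 ^ e)⁻¹ * q1 * t1 ^ e := PresentedGroup.toGroup.of _
  obtain ⟨t0, et0⟩ : ∃ t0, t0 = X * X * Z ^ i := ⟨_, rfl⟩
  obtain ⟨T0, eT0⟩ : ∃ T0, T0 = (t0 ^ (3 : ℤ)) ^ (-a) * X := ⟨_, rfl⟩
  obtain ⟨q0, eq0⟩ : ∃ q0, q0 = Y⁻¹ * W * (t0 ^ e)⁻¹ := ⟨_, rfl⟩
  obtain ⟨o1, o2, o3, o4, o5, o6, o7⟩ := ofOct m1 m2 m3 m4 m5 m6 m7 m8 ha hi et0 eT0 eq0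
  let ι : PresentedGroup (octRels r) →* Multiplicative (ZMod m) × PresentedGroup (octRels r) :=
    MonoidHom.inr _ _
  obtain ⟨μ0, eμ0⟩ : ∃ μ0 : Multiplicative (ZMod m) × PresentedGroup (octRels r),
    μ0 = (Multiplicative.ofAdd 1, 1) := ⟨_, rfl⟩
  have μ0c : ∀ p, Commute μ0 p := by rw [eμ0]; exact mu0_central
  have μ0m : μ0 ^ M = 1 := by rw [eμ0]; exact mu0_pow hdv
  have tw := H91PerPA.twist (T := ι T0) (t := ι t0) (q := ι q0) (μ := μ0)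
    (by rw [← map_mul, o1, map_zpow]) (by rw [← map_zpow, o2, map_zpow])
    (by rw [← map_zpow, ← map_mul, ← map_mul, o3, map_zpow]) he μ0c μ0m
  let φ : PresentedGroup (Set.range (relP e r)) →*
      Multiplicative (ZMod m) × PresentedGroup (octRels r) :=
    PresentedGroup.toGroup (f := ![ι T0 * μ0 ^ (6 : ℤ), ι t0 * μ0 ^ (4 : ℤ),
        ι q0 * μ0 ^ (3 * (r : ℤ))]) ((relP_iff e r _).2 tw)
  have φT : φ T = ι T0 * μ0 ^ (6 : ℤ) := PresentedGroup.toGroup.of _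
  have φt : φ t = ι t0 * μ0 ^ (4 : ℤ) := PresentedGroup.toGroup.of _
  have φq : φ q = ι q0 * μ0 ^ (3 * (r : ℤ)) := PresentedGroup.toGroup.of _
  have φμ : φ μ = μ0 := by
    have e0 : φ (T ^ (2 : ℤ)) = ι (T0 ^ (2 : ℤ)) * μ0 ^ (12 : ℤ) := by
      rw [map_zpow, φT, ((μ0c _).zpow_left 6).symm.mul_zpow, map_zpow, ← zpow_mul]; rfl
    have e1 : φ (q⁻¹ * T ^ (2 : ℤ) * q) = (ι (T0 ^ (2 : ℤ)))⁻¹ * μ0 ^ (12 : ℤ) := by
      rw [map_mul, map_mul, map_inv, e0, φq, ← map_inv, ← o4, map_mul, map_mul, map_inv]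
      calc _ = (μ0 ^ (3 * (r : ℤ)))⁻¹ * ((ι q0)⁻¹ * ι (T0 ^ (2 : ℤ)) * (μ0 ^ (12 : ℤ) * ι q0)) *
            μ0 ^ (3 * (r : ℤ)) := by group
        _ = _ := by
          rw [cfix ((μ0c _).zpow_left _), ((μ0c _).zpow_left _).eq]; group
    rw [eμ, map_zpow, map_mul, e0, e1, mul_assoc, ((μ0c _).zpow_left _).left_comm,
      mul_inv_cancel_left, ← zpow_add, ← zpow_mul,
      per (b := 1) μ0m (-g') (by linear_combination hg), zpow_one]
  have φT1 : φ T1 = ι T0 := by rw [eT1, map_mul, map_zpow, map_inv, φT, φμ]; group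
  have φt1 : φ t1 = ι t0 := by rw [et1, map_mul, map_zpow, map_inv, φt, φμ]; group
  have φq1 : φ q1 = ι q0 := by rw [eq1, map_mul, map_zpow, map_inv, φq, φμ]; group
  refine assemble m μ μm μc ψ φ (by rw [φμ, eμ0]) ?_ ?_
  · have : φ.comp ψ = ι := by
      refine PresentedGroup.ext fun b => ?_
      fin_cases b
      · show φ (ψ X) = ι X
        rw [ψX, ← o5]; simp only [map_mul, φq1]
      · show φ (ψ Y) = ι Y
        rw [ψY, ← o6, ← o5]; simp only [map_mul, map_inv, map_zpow, φq1, φt1]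
      · show φ (ψ Z) = ι Z
        rw [ψZ, ← o7]; simp only [map_mul, map_zpow, φT1, φt1]
      · show φ (ψ W) = ι W
        have : W = t0 ^ e * (q0 * q0) * (t0 ^ e)⁻¹ * q0 * t0 ^ e := by rw [o5, o6, eq0]; group
        rw [ψW, this]; simp only [map_mul, map_inv, map_zpow, φq1, φt1]
    intro b
    exact DFunLike.congr_fun this b
  · intro S hμ hψ
    have sX := hψ X
    have sY := hψ Y
    have sZ := hψ Z
    have sW := hψ W
    rw [ψX] at sX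
    rw [ψY] at sY
    rw [ψZ] at sZ
    rw [ψW] at sW
    have sE : T1 ^ (2 * (r : ℤ)) ∈ S := by
      rw [mul_comm, zpow_mul, ← nq]; exact S.zpow_mem sX _
    have sa : t1 ^ e ∈ S := (S.mul_mem_cancel_right (S.zpow_mem sE _)).1 sZ
    have sq : q1 ∈ S := (S.mul_mem_cancel_left sY).1 ((S.mul_mem_cancel_right sa).1 sW)
    have st : t1 ∈ S := mem_of_coprime S sa (by rw [zpow_mul, nt, ← zpow_mul]; exact sE) c3
    have sT : T1 ∈ S := mem_of_coprime S (a := 2) (b := r) (by rw [← nt]; exact S.zpow_mem st _)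
      (by rw [← nq]; exact sX) ⟨-a, 1, by linear_combination ha⟩
    have un : ∀ (b : PresentedGroup (Set.range (relP e r))) (n : ℤ), b * μ⁻¹ ^ n ∈ S → b ∈ S :=
      fun b n hb => (S.mul_mem_cancel_right (S.zpow_mem (S.inv_mem hμ) n)).1 hb
    refine gen S fun b => ?_
    fin_cases b
    exacts [un _ _ (eT1 ▸ sT), un _ _ (et1 ▸ st), un _ _ (eq1 ▸ sq)]

end Pool.Agent.Lib.H91Per
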