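import Pool.Agent.Lib.H91PerQB

/-! The group `<T,t,q | q^2 = T^r, t^3 = T^2, (t^e q)^2 = T^(2r)>`. -/

namespace Pool.Agent.Lib.H91PerPA
open Pool.Agent.Lib.H91PerQA Pool.Agent.Lib.H91PerQB

variable {H : Type*} [Group H]

theorem prod3 {a b Z d : H} (h : a * b * (a * b) = Z) (za : Commute Z a) (zb : Commute Z b)
    (hd : b⁻¹ * (a * a * a) * b = d) (da : Commute d a) (db : Commute d (b * b)) :
    b * b * (a * (b * b) * a⁻¹) * (a * (a * (b * b) * a⁻¹) * a⁻¹) =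
      Z * Z * Z * (a * a * a * d)⁻¹ := by
  have ba : b * a = a⁻¹ * Z * b⁻¹ := by rw [← h]; group
  have ab : a * b = Z * b⁻¹ * a⁻¹ := by rw [← h]; group
  have la : ∀ g, a⁻¹ * (Z * g) = Z * (a⁻¹ * g) := fun g => za.inv_right.symm.left_comm g
  have lb : ∀ g, b⁻¹ * (Z * g) = Z * (b⁻¹ * g) := fun g => zb.inv_right.symm.left_comm g
  have lb' : ∀ g, b * (Z * g) = Z * (b * g) := fun g => zb.symm.left_comm g
  have e1 : b * b * a * (b * b) = Z * (b * a⁻¹ * b) := by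
    calc b * b * a * (b * b) = b * (b * a) * (b * b) := by group
      _ = b * (a⁻¹ * (Z * b)) := by rw [ba]; group
      _ = _ := by rw [la, lb']; group
  have e2 : b * a⁻¹ * b = Z * (Z * (a⁻¹ * (b * b)⁻¹ * a⁻¹ * d⁻¹)) := by
    calc b * a⁻¹ * b = (b * a) * (a * b) * (b⁻¹ * (a * a * a) * b)⁻¹ := by group
      _ = a⁻¹ * (Z * (b⁻¹ * (Z * (b⁻¹ * a⁻¹ * d⁻¹)))) := by rw [ba, ab, hd]; group
      _ = _ := by rw [lb, la, la]; group
  have e3 : d⁻¹ * (a * (b * b) * a⁻¹ * a⁻¹) = (a * (b * b) * a⁻¹ * a⁻¹) * d⁻¹ :=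
    (((da.mul_right db).mul_right da.inv_right).mul_right da.inv_right).inv_left.eq
  have e4 : a * a * a * d = d * (a * a * a) := ((da.mul_right da).mul_right da).symm.eq
  calc b * b * (a * (b * b) * a⁻¹) * (a * (a * (b * b) * a⁻¹) * a⁻¹)
      = b * b * a * (b * b) * (a * (b * b) * a⁻¹ * a⁻¹) := by group
    _ = Z * (Z * (Z * (a⁻¹ * (b * b)⁻¹ * a⁻¹ * (d⁻¹ * (a * (b * b) * a⁻¹ * a⁻¹))))) := by
        rw [e1, e2]; group
    _ = _ := by rw [e3, e4]; group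

theorem quat {x y k Z ξ : H} (hx : x * x = Z) (hy : y * y = Z) (hk : k * k = Z)
    (h : x * y * k = ξ) (cx : Commute ξ x) (ck : Commute ξ k)
    (cZ : Commute ξ Z) : ξ ^ (4 : ℤ) = Z ^ (6 : ℤ) := by
  have zx : Commute Z x := by rw [← hx]; exact (Commute.refl x).mul_left (Commute.refl x)
  have zy : Commute Z y := by rw [← hy]; exact (Commute.refl y).mul_left (Commute.refl y)
  have e1 : x * y * (x * y) = ξ * ξ * Z⁻¹ := by
    have : x * y = ξ * k⁻¹ := by rw [← h]; group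
    rw [this, ← hk, mul_assoc, ck.inv_right.symm.left_comm]; group
  obtain ⟨κ, hκ⟩ : ∃ κ, κ = ξ * ξ * Z⁻¹ * Z⁻¹ * Z⁻¹ := ⟨_, rfl⟩
  have κx : Commute κ x := by
    rw [hκ]
    exact (((cx.mul_left cx).mul_left zx.inv_left).mul_left zx.inv_left).mul_left zx.inv_left
  have e2 : x * y * x⁻¹ = κ * y := by
    calc x * y * x⁻¹ = x * y * (x * y) * (y * y)⁻¹ * (y * (x * x)⁻¹) := by group
      _ = κ * y := by rw [e1, hx, hy, ← zy.inv_left.eq, hκ]; group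
  have e3 : y = κ * κ * y := by
    calc y = x * x * y * (x * x)⁻¹ := by rw [hx, zy.eq]; group
      _ = x * (x * y * x⁻¹) * x⁻¹ := by group
      _ = κ * (x * y * x⁻¹) := by rw [e2, ← κx.left_comm, mul_assoc κ, e2]
      _ = _ := by rw [e2]; group
  have e4 : κ * κ = 1 := by simpa using e3.symm
  have e5 : κ = ξ ^ (2 : ℤ) * Z ^ (-3 : ℤ) := by rw [hκ, zpow_two]; group
  have e6 : κ * κ = ξ ^ (4 : ℤ) * Z ^ (-6 : ℤ) := by
    rw [e5, mul_assoc, (cZ.zpow_zpow 2 (-3)).symm.left_comm]; group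
  rw [e6] at e4
  rw [← mul_inv_eq_one, ← zpow_neg]; exact e4

theorem cop3 {e r M : ℤ} (he : 4 * e = M + 3 * r) (hM : IsCoprime M (6 * r)) :
    IsCoprime e (3 * r) := by
  obtain ⟨p, q, h⟩ := hM
  exact ⟨4 * p, 2 * q - p, by linear_combination h + p * he⟩

theorem core {T t q : H} {e r a M g g' : ℤ} (hq : q * q = T ^ r) (ht : t ^ (3 : ℤ) = T ^ (2 : ℤ))
    (hs : t ^ e * q * (t ^ e * q) = T ^ (2 * r)) (he : 4 * e = M + 3 * r) (ha : r = 2 * a + 1)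
    (hM : IsCoprime M (6 * r)) (hg : 24 * g + M * g' = 1) {μ : H}
    (hμ : μ = (T ^ (2 : ℤ) * (q⁻¹ * T ^ (2 : ℤ) * q)) ^ g) :
    Commute μ T ∧ Commute μ t ∧ Commute μ q ∧ μ ^ M = 1 ∧
      q⁻¹ * T ^ (2 : ℤ) * q = (T ^ (2 : ℤ))⁻¹ * μ ^ (4 * 6 : ℤ) ∧ T ^ (4 * r) = μ ^ (24 * r) := by
  have hT : T = (T ^ (2 : ℤ)) ^ (-a) * (q * q) := by rw [hq, ha]; group
  have Zt : T ^ (2 * r) = t ^ (3 * r) := by rw [zpow_mul, zpow_mul, ht]
  have Zq : T ^ (2 * r) = q * q * (q * q) := by rw [hq]; group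
  have Zd : T ^ (2 * r) = (T ^ (2 : ℤ)) ^ r := by rw [zpow_mul]
  have Z4 : T ^ (4 * r) = T ^ (2 * r) * T ^ (2 * r) := by group
  have dq : Commute (q * q) (T ^ (2 : ℤ)) := by rw [hq]; exact Commute.zpow_zpow_self T _ _
  have dZ : Commute (T ^ (2 * r)) (T ^ (2 : ℤ)) := Commute.zpow_zpow_self T _ _
  have dT : Commute (T ^ (2 : ℤ)) T := Commute.zpow_self T _
  rw [Z4]
  generalize T ^ (2 * r) = Z at *
  generalize T ^ (2 : ℤ) = d at *
  have td : Commute t d := by rw [← ht]; exact Commute.self_zpow t _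
  have zt : Commute Z t := by rw [Zt]; exact Commute.zpow_self t _
  have qq : Commute (q * q) q := (Commute.refl q).mul_left (Commute.refl q)
  have zq : Commute Z q := by rw [Zq]; exact qq.mul_left qq
  have h1 : Commute (q⁻¹ * d * q) (t ^ e) := by
    have e1 := conj_sw (g := t ^ e * q) (a := d) (by rw [hs]; exact dZ)
    have e2 : (t ^ e * q)⁻¹ * d * (t ^ e * q) = q⁻¹ * d * q := by
      calc (t ^ e * q)⁻¹ * d * (t ^ e * q) = q⁻¹ * ((t ^ e)⁻¹ * d * t ^ e) * q := by group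
        _ = _ := by rw [cfix (td.zpow_left e)]
    have e3 : t ^ e * q * d * (t ^ e * q)⁻¹ = t ^ e * (q⁻¹ * d * q) * (t ^ e)⁻¹ := by
      rw [← conj_sw dq]; group
    rw [e2, e3] at e1
    show _ = _
    nth_rewrite 1 [← e1]; group
  have dZ' : Commute (q⁻¹ * d * q) Z := (zq.symm.inv_left.mul_left dZ.symm).mul_left zq.symm
  have h2 : Commute (q⁻¹ * d * q) t := comm_of_coprime h1 (by rw [← Zt]; exact dZ') (cop3 he hM)
  have h3 : Commute (q⁻¹ * d * q) d := by rw [← ht]; rw [← ht] at h2; exact h2.zpow_right _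
  have h4 : Commute (q⁻¹ * d * q) (q * q) :=
    (qq.symm.inv_left.mul_left dq.symm).mul_left qq.symm
  have h5 : Commute (q⁻¹ * d * q) T := by rw [hT]; exact (h3.zpow_right _).mul_right h4
  have ct : Commute (d * (q⁻¹ * d * q)) t := td.symm.mul_left h2
  have cT : Commute (d * (q⁻¹ * d * q)) T := dT.mul_left h5
  have cq : Commute (d * (q⁻¹ * d * q)) q := by
    show _ = _
    calc d * (q⁻¹ * d * q) * q = (q⁻¹ * d * q) * d * q := by rw [h3.eq]
      _ = q * ((q * q)⁻¹ * d * (q * q)) * (q⁻¹ * d * q) := by group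
      _ = _ := by rw [cfix dq]; group
  have cr : (d * (q⁻¹ * d * q)) ^ r = Z * Z := by
    rw [h3.symm.mul_zpow, cj, ← Zd, cfix zq.symm]
  have a3 : t ^ e * t ^ e * t ^ e = d ^ e := by rw [← ht]; group
  have p3 := prod3 hs (zt.zpow_right e) zq (d := (q⁻¹ * d * q) ^ e) (by rw [a3, cj])
    (h1.zpow_left e) (h4.zpow_left e)
  rw [a3, ← h3.symm.mul_zpow] at p3
  have vd : q⁻¹ * d * q = d⁻¹ * (d * (q⁻¹ * d * q)) := by group
  generalize d * (q⁻¹ * d * q) = c at *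
  have cZ : Commute c Z := by rw [Zt]; exact ct.zpow_right _
  have ξc : ∀ p : H, Commute Z p → Commute c p → Commute (Z * Z * Z * (c ^ e)⁻¹) p :=
    fun p h h' => ((h.mul_left h).mul_left h).mul_left (h'.zpow_left e).inv_left
  have cc : ∀ x : H, Commute x t → ∀ p, Commute x p → Commute x (t ^ e * p * (t ^ e)⁻¹) :=
    fun x hx p hp => ((hx.zpow_right e).mul_right hp).mul_right (hx.zpow_right e).inv_right
  have sq : ∀ p : H, p * p = Z → t ^ e * p * (t ^ e)⁻¹ * (t ^ e * p * (t ^ e)⁻¹) = Z :=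
    fun p hp => by
      calc _ = t ^ e * (p * p) * (t ^ e)⁻¹ := by group
        _ = Z := by rw [hp, ← (zt.zpow_right e).eq]; group
  have k4 := quat Zq.symm (sq _ Zq.symm) (sq _ (sq _ Zq.symm)) p3
    (ξc _ (zq.mul_right zq) (cq.mul_right cq))
    (ξc _ (cc _ zt _ (cc _ zt _ (zq.mul_right zq))) (cc _ ct _ (cc _ ct _ (cq.mul_right cq))))
    (ξc _ (Commute.refl Z) cZ)
  have k5 : c ^ (4 * e) = Z ^ (6 : ℤ) := by
    rw [(((cZ.mul_right cZ).mul_right cZ).zpow_left e).inv_left.symm.mul_zpow] at k4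
    have : (Z * Z * Z) ^ (4 : ℤ) = Z ^ (6 : ℤ) * Z ^ (6 : ℤ) := by
      rw [← zpow_two, ← zpow_add_one]; group
    rw [this, mul_assoc, mul_eq_left, inv_zpow, mul_inv_eq_one, ← zpow_mul, mul_comm e] at k4
    exact k4.symm
  have cM : c ^ M = 1 := by
    rw [show M = 4 * e + r * (-3) by linear_combination -he, zpow_add, k5, zpow_mul, cr, ← zpow_two]
    group
  have μ24 : μ ^ (4 * 6 : ℤ) = c := by
    rw [hμ, ← zpow_mul]; simpa using per (b := 1) cM (-g') (by linear_combination hg)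
  refine ⟨by rw [hμ]; exact cT.zpow_left _, by rw [hμ]; exact ct.zpow_left _,
    by rw [hμ]; exact cq.zpow_left _, ?_, by rw [μ24]; exact vd, ?_⟩
  · rw [hμ, ← zpow_mul, mul_comm, zpow_mul, cM, one_zpow]
  · rw [← cr, ← μ24, ← zpow_mul]; congr 1

theorem twist {T t q μ : H} {e r M : ℤ} (hq : q * q = T ^ r) (ht : t ^ (3 : ℤ) = T ^ (2 : ℤ))
    (hs : t ^ e * q * (t ^ e * q) = T ^ (2 * r)) (he : 4 * e = M + 3 * r)
    (hc : ∀ g, Commute μ g) (hm : μ ^ M = 1) :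
    q * μ ^ (3 * r) * (q * μ ^ (3 * r)) = (T * μ ^ (6 : ℤ)) ^ r ∧
    (t * μ ^ (4 : ℤ)) ^ (3 : ℤ) = (T * μ ^ (6 : ℤ)) ^ (2 : ℤ) ∧
    (t * μ ^ (4 : ℤ)) ^ e * (q * μ ^ (3 * r)) * ((t * μ ^ (4 : ℤ)) ^ e * (q * μ ^ (3 * r))) =
      (T * μ ^ (6 : ℤ)) ^ (2 * r) := by
  have l : ∀ (e : ℤ) (g h : H), μ ^ e * (g * h) = g * (μ ^ e * h) := fun e g h =>
    ((hc g).zpow_left e).left_comm h
  have p : ∀ (g : H) (f e : ℤ), (g * μ ^ f) ^ e = g ^ e * μ ^ (f * e) := fun g f e => by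
    rw [((hc g).zpow_left f).symm.mul_zpow, ← zpow_mul]
  have sq : ∀ (g : H) (f : ℤ), g * μ ^ f * (g * μ ^ f) = g * g * μ ^ (2 * f) := fun g f => by
    rw [mul_assoc, l]; group
  refine ⟨?_, ?_, ?_⟩
  · rw [sq, p, hq]; congr 2; ring
  · rw [p, p, ht]; congr 2
  · have : (t * μ ^ (4 : ℤ)) ^ e * (q * μ ^ (3 * r)) = t ^ e * q * μ ^ (4 * e + 3 * r) := by
      rw [p, mul_assoc, l]; group
    rw [this, sq, hs, p, per (a := 2 * (4 * e + 3 * r)) (b := 6 * (2 * r)) hm 2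
      (by linear_combination 2 * he)]

end Pool.Agent.Lib.H91PerPA
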