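import Mathlib

/-! The group `<T,u,v,w | u^2 = T^(BC), v^2 = T^(CA), w^2 = T^(AB), uvw = T^s>`: consequences of
the relations in an arbitrary group. -/

namespace Pool.Agent.Lib.H91PerQA

variable {H : Type*} [Group H]

theorem eq_one_of_coprime {g : H} {a b : ℤ} (ha : g ^ a = 1) (hb : g ^ b = 1)
    (h : IsCoprime a b) : g = 1 := by
  obtain ⟨p, q, hpq⟩ := h
  have : g ^ (p * a + q * b) = 1 := by
    rw [zpow_add, mul_comm p, mul_comm q, zpow_mul, zpow_mul, ha, hb]; simp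
  rwa [hpq, zpow_one] at this

theorem comm_of_coprime {g h : H} {a b : ℤ} (ha : Commute h (g ^ a)) (hb : Commute h (g ^ b))
    (hc : IsCoprime a b) : Commute h g := by
  obtain ⟨p, q, hpq⟩ := hc
  have : g = (g ^ a) ^ p * (g ^ b) ^ q := by
    rw [← zpow_mul, ← zpow_mul, ← zpow_add, mul_comm a, mul_comm b, hpq, zpow_one]
  rw [this]
  exact (ha.zpow_right p).mul_right (hb.zpow_right q)

theorem conj_sw {g a : H} (h : Commute (g * g) a) : g * a * g⁻¹ = g⁻¹ * a * g := by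
  have := h.eq
  calc g * a * g⁻¹ = g⁻¹ * (g * g * a) * g⁻¹ := by group
    _ = g⁻¹ * (a * (g * g)) * g⁻¹ := by rw [this]
    _ = g⁻¹ * a * g := by group

theorem cop_aux {A B C s m x y z : ℤ} (hs : 2 * s = A * B + B * C + C * A + m)
    (hb : x * (B * C) + y * (C * A) + z * (A * B) = 1) (hm : IsCoprime m A) :
    IsCoprime ((2 * x * s - 1) * (B * C)) A := by
  obtain ⟨p, q, hpq⟩ := hm
  have h1 : IsCoprime (B * C) A := ⟨x, y * C + z * B, by linear_combination hb⟩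
  have h2 : IsCoprime (2 * x * s - 1) A :=
    ⟨p * (B * C), q + p * m * (y * C + z * B) - p * (B * C) * (x * B + x * C - y * C - z * B), by
      linear_combination hpq + p * (B * C) * x * hs + (p * m + p * (B * C)) * hb⟩
  exact h2.mul_left h1

/-- The swap lemma. -/
theorem swap {T u v w : H} {A B C s m x y z : ℤ}
    (hu : u * u = T ^ (B * C)) (hv : v * v = T ^ (C * A)) (hw : w * w = T ^ (A * B))
    (hr : u * v * w = T ^ s) (hs : 2 * s = A * B + B * C + C * A + m)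
    (hb : x * (B * C) + y * (C * A) + z * (A * B) = 1) (hm : IsCoprime m A) :
    w⁻¹ * T ^ (B * C) * w = v⁻¹ * T ^ (B * C) * v ∧ Commute (v⁻¹ * T ^ (B * C) * v) T ∧
      Commute (v⁻¹ * T ^ (B * C) * v) u := by
  have hcop := (cop_aux hs hb hm).of_mul_left_left
  have hT : T = (T ^ (B * C)) ^ x * (T ^ (C * A)) ^ y * (T ^ (A * B)) ^ z := by
    rw [← zpow_mul, ← zpow_mul, ← zpow_mul, ← zpow_add, ← zpow_add]
    rw [show B * C * x + C * A * y + A * B * z = 1 by linear_combination hb, zpow_one]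
  have hTs : T ^ s = (T ^ (B * C)) ^ (x * s) * ((T ^ (C * A)) ^ (y * s) * (T ^ (A * B)) ^ (z * s)) := by
    rw [← zpow_mul, ← zpow_mul, ← zpow_mul, ← zpow_add, ← zpow_add]
    congr 1; linear_combination (-s) * hb
  have hAB : (T ^ (B * C)) ^ A = (T ^ (C * A)) ^ B := by
    rw [← zpow_mul, ← zpow_mul]; congr 1; ring
  have hab : Commute (T ^ (B * C)) (T ^ (C * A)) := Commute.zpow_zpow_self T _ _
  have hac : Commute (T ^ (B * C)) (T ^ (A * B)) := Commute.zpow_zpow_self T _ _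
  have hat : Commute (T ^ s) (T ^ (B * C)) := Commute.zpow_zpow_self T _ _
  generalize T ^ (B * C) = a at *
  generalize T ^ (C * A) = b at *
  generalize T ^ (A * B) = c at *
  generalize T ^ s = t at *
  have hua : Commute u a := by rw [← hu]; exact (Commute.refl u).mul_right (Commute.refl u)
  have hvb : Commute v b := by rw [← hv]; exact (Commute.refl v).mul_right (Commute.refl v)
  have hwc : Commute w c := by rw [← hw]; exact (Commute.refl w).mul_right (Commute.refl w)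
  have hvw : v * w = u⁻¹ * t := by rw [← hr]; group
  have h0 : Commute (v * w) a := by rw [hvw]; exact hua.inv_left.mul_left hat
  have h1 : v⁻¹ * a * v = w * a * w⁻¹ := by
    calc v⁻¹ * a * v = v⁻¹ * (a * (v * w)) * w⁻¹ := by group
      _ = v⁻¹ * (v * w * a) * w⁻¹ := by rw [h0.eq]
      _ = w * a * w⁻¹ := by group
  have h2 : w * a * w⁻¹ = w⁻¹ * a * w := conj_sw (by rw [hw]; exact hac.symm)
  have h3 : v⁻¹ * (v⁻¹ * a * v) * v = a := by
    calc v⁻¹ * (v⁻¹ * a * v) * v = (v * v)⁻¹ * (a * (v * v)) := by group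
      _ = a := by rw [hv, hab.eq]; group
  have hb' : Commute (v⁻¹ * a * v) b := (hvb.inv_left.mul_left hab).mul_left hvb
  have hc' : Commute (v⁻¹ * a * v) c := by
    rw [h1]; exact (hwc.mul_left hac).mul_left hwc.inv_left
  have h4 : Commute (v⁻¹ * a * v) (v * w) := by
    have : (v * w)⁻¹ * (v⁻¹ * a * v) * (v * w) = v⁻¹ * a * v := by
      calc (v * w)⁻¹ * (v⁻¹ * a * v) * (v * w) = w⁻¹ * (v⁻¹ * (v⁻¹ * a * v) * v) * w := by group
        _ = v⁻¹ * a * v := by rw [h3, ← h2, ← h1]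
    show _ = _
    calc v⁻¹ * a * v * (v * w) = (v * w) * ((v * w)⁻¹ * (v⁻¹ * a * v) * (v * w)) := by group
      _ = _ := by rw [this]
  refine ⟨by rw [h1, h2], ?_⟩
  generalize v⁻¹ * a * v = a' at *
  have h5 : Commute a' (u⁻¹ * a ^ (x * s)) := by
    have : u⁻¹ * a ^ (x * s) = v * w * (b ^ (y * s) * c ^ (z * s))⁻¹ := by
      rw [hvw, hTs]; group
    rw [this]
    exact h4.mul_right ((hb'.zpow_right _).mul_right (hc'.zpow_right _)).inv_right
  have h6 : u⁻¹ * a ^ (x * s) * (u⁻¹ * a ^ (x * s)) = a ^ (2 * x * s - 1) := by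
    have := (hua.inv_left.zpow_right (x * s)).eq
    calc u⁻¹ * a ^ (x * s) * (u⁻¹ * a ^ (x * s))
        = u⁻¹ * (a ^ (x * s) * u⁻¹) * a ^ (x * s) := by group
      _ = (u * u)⁻¹ * a ^ (x * s) * a ^ (x * s) := by rw [← this]; group
      _ = a ^ (2 * x * s - 1) := by rw [hu]; group
  have h7 : Commute a' a :=
    comm_of_coprime (by rw [← h6]; exact h5.mul_right h5) (by rw [hAB]; exact hb'.zpow_right _) hcop
  refine ⟨?_, ?_⟩
  · rw [hT]
    exact ((h7.zpow_right _).mul_right (hb'.zpow_right _)).mul_right (hc'.zpow_right _)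
  · have : u = (u⁻¹ * a ^ (x * s) * (a ^ (x * s))⁻¹)⁻¹ := by group
    rw [this]
    exact (h5.mul_right (h7.zpow_right _).inv_right).inv_right

/-- six pairwise commuting elements -/
structure Six (a b c c1 c2 c3 : H) : Prop where
  h01 : Commute a b
  h02 : Commute a c
  h03 : Commute a c1
  h04 : Commute a c2
  h05 : Commute a c3
  h12 : Commute b c
  h13 : Commute b c1
  h14 : Commute b c2
  h15 : Commute b c3
  h23 : Commute c c1
  h24 : Commute c c2
  h25 : Commute c c3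
  h34 : Commute c1 c2
  h35 : Commute c1 c3
  h45 : Commute c2 c3

/-- monomial in six elements -/
def E (a b c c1 c2 c3 : H) (i j k l n o : ℤ) : H :=
  a ^ i * (b ^ j * (c ^ k * (c1 ^ l * (c2 ^ n * c3 ^ o))))

theorem E_mul {a b c c1 c2 c3 : H} (D : Six a b c c1 c2 c3) (i j k l n o i' j' k' l' n' o' : ℤ) :
    E a b c c1 c2 c3 i j k l n o * E a b c c1 c2 c3 i' j' k' l' n' o' =
      E a b c c1 c2 c3 (i + i') (j + j') (k + k') (l + l') (n + n') (o + o') := by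
  have l01 : ∀ (p q : ℤ) (g : H), b ^ p * (a ^ q * g) = a ^ q * (b ^ p * g) :=
    fun p q g => (D.h01.symm.zpow_zpow p q).left_comm g
  have l02 : ∀ (p q : ℤ) (g : H), c ^ p * (a ^ q * g) = a ^ q * (c ^ p * g) :=
    fun p q g => (D.h02.symm.zpow_zpow p q).left_comm g
  have l03 : ∀ (p q : ℤ) (g : H), c1 ^ p * (a ^ q * g) = a ^ q * (c1 ^ p * g) :=
    fun p q g => (D.h03.symm.zpow_zpow p q).left_comm g
  have l04 : ∀ (p q : ℤ) (g : H), c2 ^ p * (a ^ q * g) = a ^ q * (c2 ^ p * g) :=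
    fun p q g => (D.h04.symm.zpow_zpow p q).left_comm g
  have l05 : ∀ (p q : ℤ) (g : H), c3 ^ p * (a ^ q * g) = a ^ q * (c3 ^ p * g) :=
    fun p q g => (D.h05.symm.zpow_zpow p q).left_comm g
  have l12 : ∀ (p q : ℤ) (g : H), c ^ p * (b ^ q * g) = b ^ q * (c ^ p * g) :=
    fun p q g => (D.h12.symm.zpow_zpow p q).left_comm g
  have l13 : ∀ (p q : ℤ) (g : H), c1 ^ p * (b ^ q * g) = b ^ q * (c1 ^ p * g) :=
    fun p q g => (D.h13.symm.zpow_zpow p q).left_comm g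
  have l14 : ∀ (p q : ℤ) (g : H), c2 ^ p * (b ^ q * g) = b ^ q * (c2 ^ p * g) :=
    fun p q g => (D.h14.symm.zpow_zpow p q).left_comm g
  have l15 : ∀ (p q : ℤ) (g : H), c3 ^ p * (b ^ q * g) = b ^ q * (c3 ^ p * g) :=
    fun p q g => (D.h15.symm.zpow_zpow p q).left_comm g
  have l23 : ∀ (p q : ℤ) (g : H), c1 ^ p * (c ^ q * g) = c ^ q * (c1 ^ p * g) :=
    fun p q g => (D.h23.symm.zpow_zpow p q).left_comm g
  have l24 : ∀ (p q : ℤ) (g : H), c2 ^ p * (c ^ q * g) = c ^ q * (c2 ^ p * g) :=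
    fun p q g => (D.h24.symm.zpow_zpow p q).left_comm g
  have l25 : ∀ (p q : ℤ) (g : H), c3 ^ p * (c ^ q * g) = c ^ q * (c3 ^ p * g) :=
    fun p q g => (D.h25.symm.zpow_zpow p q).left_comm g
  have l34 : ∀ (p q : ℤ) (g : H), c2 ^ p * (c1 ^ q * g) = c1 ^ q * (c2 ^ p * g) :=
    fun p q g => (D.h34.symm.zpow_zpow p q).left_comm g
  have l35 : ∀ (p q : ℤ) (g : H), c3 ^ p * (c1 ^ q * g) = c1 ^ q * (c3 ^ p * g) :=
    fun p q g => (D.h35.symm.zpow_zpow p q).left_comm g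
  have l45 : ∀ (p q : ℤ) (g : H), c3 ^ p * (c2 ^ q * g) = c2 ^ q * (c3 ^ p * g) :=
    fun p q g => (D.h45.symm.zpow_zpow p q).left_comm g
  simp only [E, zpow_add, mul_assoc]
  simp only [l01, l02, l03, l04, l05, l12, l13, l14, l15, l23, l24, l25, l34, l35, l45]

theorem E_inv {a b c c1 c2 c3 : H} (D : Six a b c c1 c2 c3) (i j k l n o : ℤ) :
    (E a b c c1 c2 c3 i j k l n o)⁻¹ = E a b c c1 c2 c3 (-i) (-j) (-k) (-l) (-n) (-o) := by
  rw [inv_eq_iff_mul_eq_one, E_mul D]; simp [E]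

theorem E_conj {a b c c1 c2 c3 g : H} (i j k l n o : ℤ) :
    g⁻¹ * E a b c c1 c2 c3 i j k l n o * g =
      E (g⁻¹ * a * g) (g⁻¹ * b * g) (g⁻¹ * c * g) (g⁻¹ * c1 * g) (g⁻¹ * c2 * g) (g⁻¹ * c3 * g)
        i j k l n o := by
  have h : ∀ (p : H) (e : ℤ), (g⁻¹ * p * g) ^ e = g⁻¹ * p ^ e * g := fun p e => by
    simpa using conj_zpow (i := e) (a := g⁻¹) (b := p)
  simp only [E, h]; group

theorem cfix {g p : H} (h : Commute g p) : g⁻¹ * p * g = p := by
  rw [mul_assoc, ← h.eq]; group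

theorem E_zpow {a b c c1 c2 c3 : H} (D : Six a b c c1 c2 c3) (i j k l n o e : ℤ) :
    (E a b c c1 c2 c3 i j k l n o) ^ e =
      E a b c c1 c2 c3 (i * e) (j * e) (k * e) (l * e) (n * e) (o * e) := by
  induction e using Int.induction_on with
  | zero => simp [E]
  | succ e ih => rw [zpow_add_one, ih, E_mul D]; congr 1 <;> ring
  | pred e ih => rw [zpow_sub_one, ih, E_inv D, E_mul D]; congr 1 <;> ring

/-- the relation coming from computing `(uv)^2 (vu)^2` in two ways -/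
theorem sphere {u v a b c c1 c2 c3 : H} (D : Six a b c c1 c2 c3) {X Y Z : ℤ}
    (hu : u * u = a) (hv : v * v = b)
    (hw : v⁻¹ * u⁻¹ * (a ^ X * (b ^ Y * c ^ Z)) * (v⁻¹ * u⁻¹ * (a ^ X * (b ^ Y * c ^ Z))) = c)
    (ub : u⁻¹ * b * u = b⁻¹ * c2) (uc : u⁻¹ * c * u = c⁻¹ * c3)
    (va : v⁻¹ * a * v = a⁻¹ * c1) (vc : v⁻¹ * c * v = c⁻¹ * c3)
    (u1 : Commute u c1) (u2 : Commute u c2) (u3 : Commute u c3)
    (v1 : Commute v c1) (v2 : Commute v c2) (v3 : Commute v c3) :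
    c1 ^ (2 * X - 1) * (c2 ^ (2 * Y - 1) * c3 ^ (2 * Z - 1)) = 1 := by
  have hua : Commute u a := by rw [← hu]; exact (Commute.refl u).mul_right (Commute.refl u)
  have hvb : Commute v b := by rw [← hv]; exact (Commute.refl v).mul_right (Commute.refl v)
  have ea : ∀ e : ℤ, a ^ e = E a b c c1 c2 c3 e 0 0 0 0 0 := fun e => by simp [E]
  have eb : ∀ e : ℤ, b ^ e = E a b c c1 c2 c3 0 e 0 0 0 0 := fun e => by simp [E]
  have ec : ∀ e : ℤ, c ^ e = E a b c c1 c2 c3 0 0 e 0 0 0 := fun e => by simp [E]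
  have e1 : ∀ e : ℤ, c1 ^ e = E a b c c1 c2 c3 0 0 0 e 0 0 := fun e => by simp [E]
  have e2 : ∀ e : ℤ, c2 ^ e = E a b c c1 c2 c3 0 0 0 0 e 0 := fun e => by simp [E]
  have e3 : ∀ e : ℤ, c3 ^ e = E a b c c1 c2 c3 0 0 0 0 0 e := fun e => by simp [E]
  have fa : ∀ e : ℤ, (a⁻¹ * c1) ^ e = E a b c c1 c2 c3 (-e) 0 0 e 0 0 := fun e => by
    rw [D.h03.inv_left.mul_zpow]; simp [E]
  have fb : ∀ e : ℤ, (b⁻¹ * c2) ^ e = E a b c c1 c2 c3 0 (-e) 0 0 e 0 := fun e => by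
    rw [D.h14.inv_left.mul_zpow]; simp [E]
  have fc : ∀ e : ℤ, (c⁻¹ * c3) ^ e = E a b c c1 c2 c3 0 0 (-e) 0 0 e := fun e => by
    rw [D.h25.inv_left.mul_zpow]; simp [E]
  have Eu : ∀ i j k l n o : ℤ, u⁻¹ * E a b c c1 c2 c3 i j k l n o * u =
      E a b c c1 c2 c3 i (-j) (-k) l (n + j) (o + k) := fun i j k l n o => by
    rw [E_conj, ub, uc, cfix hua, cfix u1, cfix u2, cfix u3]
    conv_lhs => unfold E
    rw [ea i, fb, fc, e1 l, e2 n, e3 o]
    simp only [E_mul D]; congr 1 <;> ring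
  have Ev : ∀ i j k l n o : ℤ, v⁻¹ * E a b c c1 c2 c3 i j k l n o * v =
      E a b c c1 c2 c3 (-i) j (-k) (l + i) n (o + k) := fun i j k l n o => by
    rw [E_conj, va, vc, cfix hvb, cfix v1, cfix v2, cfix v3]
    conv_lhs => unfold E
    rw [fa, eb j, fc, e1 l, e2 n, e3 o]
    simp only [E_mul D]; congr 1 <;> ring
  have ht : a ^ X * (b ^ Y * c ^ Z) = E a b c c1 c2 c3 X Y Z 0 0 0 := by simp [E]
  rw [ht] at hw
  have ha1 : a = E a b c c1 c2 c3 1 0 0 0 0 0 := by simp [E]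
  have hb1 : b = E a b c c1 c2 c3 0 1 0 0 0 0 := by simp [E]
  have hc1 : c⁻¹ = E a b c c1 c2 c3 0 0 (-1) 0 0 0 := by simp [E]
  have hp : u * v * (u * v) = E a b c c1 c2 c3 0 0 (2 * Z - 1) X Y 0 := by
    have h1 : u * v * (u * v) = E a b c c1 c2 c3 X Y Z 0 0 0 *
        (v⁻¹ * u⁻¹ * E a b c c1 c2 c3 X Y Z 0 0 0 * (v⁻¹ * u⁻¹ * E a b c c1 c2 c3 X Y Z 0 0 0))⁻¹ *
        (v⁻¹ * (u⁻¹ * E a b c c1 c2 c3 X Y Z 0 0 0 * u) * v) := by group
    rw [h1, hw, Eu, Ev, hc1, E_mul D, E_mul D]; congr 1 <;> ring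
  have key : u * v * (u * v) * (u⁻¹ * (u * v * (u * v)) * u) =
      (u * u) * (u⁻¹ * ((v * v) * (v⁻¹ * ((u * u) * (u⁻¹ * (v * v) * u)) * v)) * u) := by group
  have hA : u * u = E a b c c1 c2 c3 1 0 0 0 0 0 := by rw [hu]; exact ha1
  have hB : v * v = E a b c c1 c2 c3 0 1 0 0 0 0 := by rw [hv]; exact hb1
  rw [hp, hA, hB] at key
  simp only [Eu, Ev, E_mul D] at key
  have key2 := mul_inv_eq_one.mpr key
  rw [E_inv D, E_mul D] at key2
  rw [e1, e2, e3, E_mul D, E_mul D, ← key2]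
  congr 1 <;> ring

/-- All consequences needed: after the swap lemma, with `mu = T^(2ABCg)`. -/
theorem core {T u v w : H} {A B C s m x y z g g' : ℤ}
    (hu : u * u = T ^ (B * C)) (hv : v * v = T ^ (C * A)) (hw : w * w = T ^ (A * B))
    (hr : u * v * w = T ^ s) (hs : 2 * s = A * B + B * C + C * A + m)
    (hb : x * (B * C) + y * (C * A) + z * (A * B) = 1) (hmA : IsCoprime m A) (hmB : IsCoprime m B)
    (hmC : IsCoprime m C) (hg : 4 * (A * B * C) * g + m * g' = 1) :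
    T ^ (A * B * C * (2 * m)) = 1 ∧
    v⁻¹ * T ^ (B * C) * v = (T ^ (B * C))⁻¹ * (T ^ (A * B * C * (2 * g))) ^ (4 * (B * C)) ∧
    u⁻¹ * T ^ (C * A) * u = (T ^ (C * A))⁻¹ * (T ^ (A * B * C * (2 * g))) ^ (4 * (C * A)) ∧
    u⁻¹ * T ^ (A * B) * u = (T ^ (A * B))⁻¹ * (T ^ (A * B * C * (2 * g))) ^ (4 * (A * B)) ∧
    v⁻¹ * T ^ (A * B) * v = (T ^ (A * B))⁻¹ * (T ^ (A * B * C * (2 * g))) ^ (4 * (A * B)) := by
  have cT : ∀ e : ℤ, (T ^ s)⁻¹ * T ^ e * T ^ s = T ^ e := fun e => by group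
  have hu' : (T ^ s)⁻¹ * u * T ^ s * ((T ^ s)⁻¹ * u * T ^ s) = T ^ (B * C) := by
    rw [← cT (B * C), ← hu]; group
  have hv' : (T ^ s)⁻¹ * v * T ^ s * ((T ^ s)⁻¹ * v * T ^ s) = T ^ (C * A) := by
    rw [← cT (C * A), ← hv]; group
  have hr2 : v * w * ((T ^ s)⁻¹ * u * T ^ s) = T ^ s := by
    have : v * w = u⁻¹ * T ^ s := by rw [← hr]; group
    rw [this]; group
  have hr3 : w * ((T ^ s)⁻¹ * u * T ^ s) * ((T ^ s)⁻¹ * v * T ^ s) = T ^ s := by
    have : w = v⁻¹ * u⁻¹ * T ^ s := by rw [← hr]; group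
    rw [this]; group
  obtain ⟨-, a2, a3⟩ := swap hu hv hw hr hs hb hmA
  obtain ⟨b1, b2, b3⟩ := swap (x := y) (y := z) (z := x) (m := m) hv hw hu' hr2
    (by linear_combination hs) (by linear_combination hb) hmB
  obtain ⟨c1, c2, -⟩ := swap (x := z) (y := x) (z := y) (m := m) hw hu' hv' hr3
    (by linear_combination hs) (by linear_combination hb) hmC
  have un : ∀ (p q : H) (e : ℤ), ((T ^ s)⁻¹ * p * T ^ s)⁻¹ * T ^ e * ((T ^ s)⁻¹ * p * T ^ s) = q →
      Commute q T → p⁻¹ * T ^ e * p = q := fun p q e h hq => by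
    have h1 : p⁻¹ * T ^ e * p = T ^ s * q * (T ^ s)⁻¹ := by rw [← h]; group
    rw [h1, ← (hq.zpow_right s).eq]; group
  have b4 := un _ _ _ b1 b2
  have c4 := un _ _ _ rfl c2
  have c5 := un _ _ _ c1 c2
  rw [← b4] at b2 b3
  rw [← c4] at c2 c5
  have hZa : (T ^ (B * C)) ^ A = T ^ (A * B * C) := by rw [← zpow_mul]; congr 1; ring
  have hZb : (T ^ (C * A)) ^ B = T ^ (A * B * C) := by rw [← zpow_mul]; congr 1; ring
  have hZc : (T ^ (A * B)) ^ C = T ^ (A * B * C) := by rw [← zpow_mul]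
  have hT : T = (T ^ (B * C)) ^ x * (T ^ (C * A)) ^ y * (T ^ (A * B)) ^ z := by
    rw [← zpow_mul, ← zpow_mul, ← zpow_mul, ← zpow_add, ← zpow_add]
    rw [show B * C * x + C * A * y + A * B * z = 1 by linear_combination hb, zpow_one]
  have hTs : T ^ s = (T ^ (B * C)) ^ (x * s) * ((T ^ (C * A)) ^ (y * s) * (T ^ (A * B)) ^ (z * s)) := by
    rw [← zpow_mul, ← zpow_mul, ← zpow_mul, ← zpow_add, ← zpow_add]
    congr 1; linear_combination (-s) * hb
  have hua : Commute u (T ^ (B * C)) := by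
    rw [← hu]; exact (Commute.refl u).mul_right (Commute.refl u)
  have hvb : Commute v (T ^ (C * A)) := by
    rw [← hv]; exact (Commute.refl v).mul_right (Commute.refl v)
  have huZ : Commute u (T ^ (A * B * C)) := by rw [← hZa]; exact hua.zpow_right _
  have hvZ : Commute v (T ^ (A * B * C)) := by rw [← hZb]; exact hvb.zpow_right _
  -- a swapped product is fixed
  have sw : ∀ (p : H) (e f : ℤ), p * p = T ^ f → Commute (p⁻¹ * T ^ e * p) T →
      Commute p (T ^ e * (p⁻¹ * T ^ e * p)) := fun p e f hp hc => by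
    have h1 : p⁻¹ * (p⁻¹ * T ^ e * p) * p = T ^ e := by
      calc p⁻¹ * (p⁻¹ * T ^ e * p) * p = (p * p)⁻¹ * T ^ e * (p * p) := by group
        _ = T ^ e := by rw [hp]; group
    have h2 : p⁻¹ * (T ^ e * (p⁻¹ * T ^ e * p)) * p = T ^ e * (p⁻¹ * T ^ e * p) := by
      calc p⁻¹ * (T ^ e * (p⁻¹ * T ^ e * p)) * p
          = (p⁻¹ * T ^ e * p) * (p⁻¹ * (p⁻¹ * T ^ e * p) * p) := by group
        _ = _ := by rw [h1, (hc.zpow_right e).eq]
    show _ = _
    calc p * (T ^ e * (p⁻¹ * T ^ e * p)) = p * (p⁻¹ * (T ^ e * (p⁻¹ * T ^ e * p)) * p) := by rw [h2]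
      _ = _ := by group
  have u1 : Commute u (T ^ (B * C) * (v⁻¹ * T ^ (B * C) * v)) := hua.mul_right a3.symm
  have v1 := sw v (B * C) _ hv a2
  have u2 := sw u (C * A) _ hu b2
  have v2 : Commute v (T ^ (C * A) * (u⁻¹ * T ^ (C * A) * u)) := hvb.mul_right b3.symm
  have u3 := sw u (A * B) _ hu c2
  have v3 := sw v (A * B) _ hv (by rw [c5]; exact c2)
  rw [c5] at v3
  have t1 : Commute T (T ^ (B * C) * (v⁻¹ * T ^ (B * C) * v)) :=
    (Commute.self_zpow T _).mul_right a2.symm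
  have t2 : Commute T (T ^ (C * A) * (u⁻¹ * T ^ (C * A) * u)) :=
    (Commute.self_zpow T _).mul_right b2.symm
  have t3 : Commute T (T ^ (A * B) * (u⁻¹ * T ^ (A * B) * u)) :=
    (Commute.self_zpow T _).mul_right c2.symm
  have cj : ∀ (p q : H) (e : ℤ), (p⁻¹ * q * p) ^ e = p⁻¹ * q ^ e * p := fun p q e => by
    simpa using conj_zpow (i := e) (a := p⁻¹) (b := q)
  have p1 : (T ^ (B * C) * (v⁻¹ * T ^ (B * C) * v)) ^ A = T ^ (A * B * C * 2) := by
    rw [(a2.symm.zpow_left _).mul_zpow, cj, hZa, cfix hvZ]; group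
  have p2 : (T ^ (C * A) * (u⁻¹ * T ^ (C * A) * u)) ^ B = T ^ (A * B * C * 2) := by
    rw [(b2.symm.zpow_left _).mul_zpow, cj, hZb, cfix huZ]; group
  have p3 : (T ^ (A * B) * (u⁻¹ * T ^ (A * B) * u)) ^ C = T ^ (A * B * C * 2) := by
    rw [(c2.symm.zpow_left _).mul_zpow, cj, hZc, cfix huZ]; group
  have va : v⁻¹ * T ^ (B * C) * v = (T ^ (B * C))⁻¹ * (T ^ (B * C) * (v⁻¹ * T ^ (B * C) * v)) := by
    group
  have ub : u⁻¹ * T ^ (C * A) * u = (T ^ (C * A))⁻¹ * (T ^ (C * A) * (u⁻¹ * T ^ (C * A) * u)) := by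
    group
  have uc : u⁻¹ * T ^ (A * B) * u = (T ^ (A * B))⁻¹ * (T ^ (A * B) * (u⁻¹ * T ^ (A * B) * u)) := by
    group
  have vc : v⁻¹ * T ^ (A * B) * v = (T ^ (A * B))⁻¹ * (T ^ (A * B) * (u⁻¹ * T ^ (A * B) * u)) := by
    rw [c5]; group
  have k12 : Commute (T ^ (B * C) * (v⁻¹ * T ^ (B * C) * v)) (T ^ (C * A) * (u⁻¹ * T ^ (C * A) * u)) :=
    ((t1.zpow_left _).mul_left ((u1.inv_left.mul_left (t1.zpow_left _)).mul_left u1)).symm
  have k13 : Commute (T ^ (B * C) * (v⁻¹ * T ^ (B * C) * v)) (T ^ (A * B) * (u⁻¹ * T ^ (A * B) * u)) :=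
    ((t1.zpow_left _).mul_left ((u1.inv_left.mul_left (t1.zpow_left _)).mul_left u1)).symm
  have k23 : Commute (T ^ (C * A) * (u⁻¹ * T ^ (C * A) * u)) (T ^ (A * B) * (u⁻¹ * T ^ (A * B) * u)) :=
    ((t2.zpow_left _).mul_left ((u2.inv_left.mul_left (t2.zpow_left _)).mul_left u2)).symm
  generalize T ^ (B * C) * (v⁻¹ * T ^ (B * C) * v) = d1 at *
  generalize T ^ (C * A) * (u⁻¹ * T ^ (C * A) * u) = d2 at *
  generalize T ^ (A * B) * (u⁻¹ * T ^ (A * B) * u) = d3 at *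
  have D : Six (T ^ (B * C)) (T ^ (C * A)) (T ^ (A * B)) d1 d2 d3 :=
    ⟨Commute.zpow_zpow_self T _ _, Commute.zpow_zpow_self T _ _, t1.zpow_left _, t2.zpow_left _,
      t3.zpow_left _, Commute.zpow_zpow_self T _ _, t1.zpow_left _, t2.zpow_left _, t3.zpow_left _,
      t1.zpow_left _, t2.zpow_left _, t3.zpow_left _, k12, k13, k23⟩
  have hw' : w = v⁻¹ * u⁻¹ * T ^ s := by rw [← hr]; group
  have sph := sphere D (X := x * s) (Y := y * s) (Z := z * s) hu hv
    (by rw [← hTs, ← hw']; exact hw) ub uc va vc u1 u2 u3 v1 v2 v3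
  have sp : ∀ e : ℤ, d1 ^ ((2 * (x * s) - 1) * e) * (d2 ^ ((2 * (y * s) - 1) * e) *
      d3 ^ ((2 * (z * s) - 1) * e)) = 1 := fun e => by
    have := congrArg (· ^ e) sph
    simp only [one_zpow] at this
    rw [((k12.zpow_zpow _ _).mul_right (k13.zpow_zpow _ _)).mul_zpow, (k23.zpow_zpow _ _).mul_zpow,
      ← zpow_mul, ← zpow_mul, ← zpow_mul] at this
    exact this
  have q1 : ∀ e : ℤ, d1 ^ (A * e) = T ^ (A * B * C * 2 * e) := fun e => by
    rw [zpow_mul, p1, ← zpow_mul]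
  have q2 : ∀ e : ℤ, d2 ^ (B * e) = T ^ (A * B * C * 2 * e) := fun e => by
    rw [zpow_mul, p2, ← zpow_mul]
  have q3 : ∀ e : ℤ, d3 ^ (C * e) = T ^ (A * B * C * 2 * e) := fun e => by
    rw [zpow_mul, p3, ← zpow_mul]
  have hZ : T ^ (A * B * C * (2 * m)) = 1 := by
    have := sp (A * B * C)
    rw [show (2 * (x * s) - 1) * (A * B * C) = A * ((2 * (x * s) - 1) * (B * C)) by ring,
      show (2 * (y * s) - 1) * (A * B * C) = B * ((2 * (y * s) - 1) * (C * A)) by ring,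
      show (2 * (z * s) - 1) * (A * B * C) = C * ((2 * (z * s) - 1) * (A * B)) by ring,
      q1, q2, q3, ← zpow_add, ← zpow_add] at this
    rw [← this]; congr 1
    linear_combination (-(2 * A * B * C)) * hs - (4 * A * B * C * s) * hb
  have hZ' : ∀ e : ℤ, T ^ (A * B * C * 2 * (m * e)) = 1 := fun e => by
    rw [show A * B * C * 2 * (m * e) = A * B * C * (2 * m) * e by ring, zpow_mul, hZ, one_zpow]
  have fin : ∀ (d : H) (P Q e : ℤ), Commute T d → (∀ f : ℤ, d ^ (P * f) = T ^ (A * B * C * 2 * f)) →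
      P * Q = A * B * C → d ^ (e * m) = 1 → IsCoprime e P → IsCoprime m P →
      d = (T ^ (A * B * C * (2 * g))) ^ (4 * Q) := fun d P Q e hd hq hPQ he hc hm => by
    have h1 : d ^ m = 1 := by
      refine eq_one_of_coprime (a := e) (b := P) ?_ ?_ hc
      · rw [← zpow_mul, mul_comm m e, he]
      · rw [← zpow_mul, mul_comm m P, hq]; simpa using hZ' 1
    have hc2 : Commute d (T ^ (-(A * B * C * (2 * g) * (4 * Q)))) := (hd.zpow_left _).symm
    have h2 : d * T ^ (-(A * B * C * (2 * g) * (4 * Q))) = 1 := by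
      refine eq_one_of_coprime (a := m) (b := P) ?_ ?_ hm
      · rw [hc2.mul_zpow, h1, one_mul, ← zpow_mul, ← hZ' (-(4 * g * Q))]; congr 1; ring
      · have := hq 1
        rw [mul_one] at this
        rw [hc2.mul_zpow, this, ← zpow_mul, ← zpow_add, ← hZ' g']; congr 1
        linear_combination (-(2 * A * B * C)) * hg - (8 * A * B * C * g) * hPQ
    rw [← zpow_mul]
    rw [zpow_neg, mul_inv_eq_one] at h2
    exact h2
  have f1 : d1 = (T ^ (A * B * C * (2 * g))) ^ (4 * (B * C)) := by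
    refine fin d1 A (B * C) _ t1 q1 (by ring) ?_ (cop_aux hs hb hmA) hmA
    have := sp (B * C * m)
    rw [show (2 * (y * s) - 1) * (B * C * m) = B * (m * ((2 * (y * s) - 1) * C)) by ring,
      show (2 * (z * s) - 1) * (B * C * m) = C * (m * ((2 * (z * s) - 1) * B)) by ring,
      q2, q3, hZ', hZ', mul_one, mul_one] at this
    rw [← this]; congr 1; ring
  have f2 : d2 = (T ^ (A * B * C * (2 * g))) ^ (4 * (C * A)) := by
    refine fin d2 B (C * A) _ t2 q2 (by ring) ?_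
      (cop_aux (A := B) (B := C) (C := A) (s := s) (m := m) (x := y) (y := z) (z := x)
        (by linear_combination hs) (by linear_combination hb) hmB) hmB
    have := sp (C * A * m)
    rw [show (2 * (x * s) - 1) * (C * A * m) = A * (m * ((2 * (x * s) - 1) * C)) by ring,
      show (2 * (z * s) - 1) * (C * A * m) = C * (m * ((2 * (z * s) - 1) * A)) by ring,
      q1, q3, hZ', hZ', mul_one, one_mul] at this
    rw [← this]; congr 1; ring
  have f3 : d3 = (T ^ (A * B * C * (2 * g))) ^ (4 * (A * B)) := by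
    refine fin d3 C (A * B) _ t3 q3 (by ring) ?_
      (cop_aux (A := C) (B := A) (C := B) (s := s) (m := m) (x := z) (y := x) (z := y)
        (by linear_combination hs) (by linear_combination hb) hmC) hmC
    have := sp (A * B * m)
    rw [show (2 * (x * s) - 1) * (A * B * m) = A * (m * ((2 * (x * s) - 1) * B)) by ring,
      show (2 * (y * s) - 1) * (A * B * m) = B * (m * ((2 * (y * s) - 1) * A)) by ring,
      q1, q2, hZ', hZ', one_mul, one_mul] at this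
    rw [← this]; congr 1; ring
  exact ⟨hZ, by rw [← f1]; exact va, by rw [← f2]; exact ub, by rw [← f3]; exact uc,
    by rw [← f3]; exact vc⟩

end Pool.Agent.Lib.H91PerQA
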