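import Pool.Agent.Lib.H91PerQA

/-! Passage between the four-generator relations and Milnor's relations. -/

namespace Pool.Agent.Lib.H91PerQB
open Pool.Agent.Lib.H91PerQA

variable {H : Type*} [Group H]

theorem cj (p q : H) (e : ℤ) : (p⁻¹ * q * p) ^ e = p⁻¹ * q ^ e * p := by
  simpa using conj_zpow (i := e) (a := p⁻¹) (b := q)

theorem Fconj {T g : H} {P Q R a b c : ℤ} (h1 : g⁻¹ * T ^ P * g = T ^ (a * P))
    (h2 : g⁻¹ * T ^ Q * g = T ^ (b * Q)) (h3 : g⁻¹ * T ^ R * g = T ^ (c * R)) (i j k : ℤ) :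
    g⁻¹ * T ^ (i * P + j * Q + k * R) * g = T ^ (a * i * P + b * j * Q + c * k * R) := by
  have e : g⁻¹ * T ^ (i * P + j * Q + k * R) * g =
      (g⁻¹ * T ^ P * g) ^ i * (g⁻¹ * T ^ Q * g) ^ j * (g⁻¹ * T ^ R * g) ^ k := by
    rw [cj, cj, cj]; group
  rw [e, h1, h2, h3]; group

theorem per {T : H} {N a b : ℤ} (h : T ^ N = 1) (q : ℤ) (hq : a = b + N * q) : T ^ a = T ^ b := by
  rw [hq, zpow_add, zpow_mul, h]; simp

theorem twist {T u v w μ : H} {A B C s m : ℤ}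
    (hu : u * u = T ^ (B * C)) (hv : v * v = T ^ (C * A)) (hw : w * w = T ^ (A * B))
    (hr : u * v * w = T ^ s) (hs : 2 * s = A * B + B * C + C * A + m)
    (hc : ∀ g, Commute μ g) (hm : μ ^ m = 1) :
    u * μ ^ (B * C) * (u * μ ^ (B * C)) = (T * μ ^ (2 : ℤ)) ^ (B * C) ∧
    v * μ ^ (C * A) * (v * μ ^ (C * A)) = (T * μ ^ (2 : ℤ)) ^ (C * A) ∧
    w * μ ^ (A * B) * (w * μ ^ (A * B)) = (T * μ ^ (2 : ℤ)) ^ (A * B) ∧
    u * μ ^ (B * C) * (v * μ ^ (C * A)) * (w * μ ^ (A * B)) = (T * μ ^ (2 : ℤ)) ^ s := by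
  have l : ∀ (e : ℤ) (g h : H), μ ^ e * (g * h) = g * (μ ^ e * h) := fun e g h =>
    ((hc g).zpow_left e).left_comm h
  have p : ∀ e : ℤ, (T * μ ^ (2 : ℤ)) ^ e = T ^ e * μ ^ (2 * e) := fun e => by
    rw [((hc T).zpow_left 2).symm.mul_zpow, ← zpow_mul]
  have sq : ∀ (g : H) (e : ℤ), g * g = T ^ e → g * μ ^ e * (g * μ ^ e) = (T * μ ^ (2 : ℤ)) ^ e :=
    fun g e h => by rw [p, ← h, mul_assoc, l]; group
  refine ⟨sq _ _ hu, sq _ _ hv, sq _ _ hw, ?_⟩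
  rw [p, ← hr, per (a := 2 * s) (b := B * C + C * A + A * B) hm 1 (by linear_combination hs)]
  simp only [mul_assoc]
  rw [l (C * A) w, l (B * C) v, l (B * C) w]; group

/-- From the normalised four-generator relations to Milnor's relations. -/
theorem toMilnor {T u v w : H} {A B C s x y z i c r r1 r2 : ℤ}
    (hu : u * u = T ^ (B * C)) (hv : v * v = T ^ (C * A)) (hw : w * w = T ^ (A * B))
    (hr : u * v * w = T ^ s) (hb : x * (B * C) + y * (C * A) + z * (A * B) = 1)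
    (hZ : T ^ (A * B * C * 2) = 1)
    (va : v⁻¹ * T ^ (B * C) * v = (T ^ (B * C))⁻¹) (ub : u⁻¹ * T ^ (C * A) * u = (T ^ (C * A))⁻¹)
    (uc : u⁻¹ * T ^ (A * B) * u = (T ^ (A * B))⁻¹) (vc : v⁻¹ * T ^ (A * B) * v = (T ^ (A * B))⁻¹)
    (hi : B = 2 * i + 1) (hc : C = 2 * c + 1) (h1 : r = -1 + C * r1) (h2 : r = 1 + B * r2)
    {X : H} (hX : X = v * T ^ (i * (C * A) + (-c - z * s) * (A * B))) :
    X * X = X * u * (X * u) ∧ X * X = u ^ (2 * A) ∧ (T ^ (2 * A)) ^ (C * B) = 1 ∧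
      X * T ^ (2 * A) * X⁻¹ = (T ^ (2 * A)) ^ r ∧ u * T ^ (2 * A) * u⁻¹ = (T ^ (2 * A))⁻¹ := by
  have Fu := Fconj (T := T) (g := u) (P := B * C) (Q := C * A) (R := A * B) (a := 1) (b := -1)
    (c := -1) (by rw [one_mul, ← hu]; group) (by rw [ub]; group) (by rw [uc]; group)
  have Fv := Fconj (T := T) (g := v) (P := B * C) (Q := C * A) (R := A * B) (a := -1) (b := 1)
    (c := -1) (by rw [va]; group) (by rw [one_mul, ← hv]; group) (by rw [vc]; group)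
  have hn : T ^ (i * (C * A) + (-c - z * s) * (A * B)) =
      T ^ (0 * (B * C) + i * (C * A) + (-c - z * s) * (A * B)) := by congr 1; ring
  have ht : T ^ s = T ^ ((x * s) * (B * C) + (y * s) * (C * A) + (z * s) * (A * B)) := by
    congr 1; linear_combination (-s) * hb
  have hz : T ^ (2 * A) =
      T ^ ((2 * A * x) * (B * C) + (2 * A * y) * (C * A) + (2 * A * z) * (A * B)) := by
    congr 1; linear_combination (-(2 * A)) * hb
  rw [hn] at hX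
  have hXX : X * X = T ^ (A * B * C) := by
    have : X * X = (v * v) * (v⁻¹ * T ^ (0 * (B * C) + i * (C * A) + (-c - z * s) * (A * B)) * v) *
        T ^ (0 * (B * C) + i * (C * A) + (-c - z * s) * (A * B)) := by rw [hX]; group
    rw [this, hv, Fv, ← zpow_add, ← zpow_add]; congr 1; rw [hi]; ring
  have hw' : w = v⁻¹ * u⁻¹ * T ^ s := by rw [← hr]; group
  have hp : u * v * (u * v) = T ^ (0 * (B * C) + 0 * (C * A) + (2 * z * s - 1) * (A * B)) := by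
    have e : u * v * (u * v) = T ^ s * (w * w)⁻¹ * (v⁻¹ * (u⁻¹ * T ^ s * u) * v) := by
      rw [hw']; group
    rw [e, hw, ht, Fu, Fv, ← zpow_neg, ← zpow_add, ← zpow_add]; congr 1; ring
  refine ⟨?_, ?_, ?_, ?_, ?_⟩
  · have : X * u * (X * u) = (u⁻¹ * (u * v * (u * v)) * u) * (u⁻¹ * (v⁻¹ * (u⁻¹ *
        T ^ (0 * (B * C) + i * (C * A) + (-c - z * s) * (A * B)) * u) * v) * u) *
        (u⁻¹ * T ^ (0 * (B * C) + i * (C * A) + (-c - z * s) * (A * B)) * u) := by rw [hX]; group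
    rw [this, hXX, hp, Fu, Fu, Fv, Fu, ← zpow_add, ← zpow_add]; congr 1; rw [hc]; ring
  · rw [hXX, zpow_mul u, zpow_two, hu, ← zpow_mul]; congr 1; ring
  · rw [← zpow_mul, ← hZ]; congr 1; ring
  · have e : X * T ^ (2 * A) * X⁻¹ = v * T ^ (2 * A) * v⁻¹ := by rw [hX]; group
    rw [e, conj_sw (by rw [hv]; exact Commute.zpow_zpow_self T _ _), hz, Fv, ← zpow_mul]
    refine (per hZ (x * (r + 1) + A * y * r2 + A * z * r1) ?_).symm
    linear_combination (2 * A * y * (C * A)) * h2 + (2 * A * z * (A * B)) * h1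
  · rw [conj_sw (by rw [hu]; exact Commute.zpow_zpow_self T _ _), hz, Fu, ← zpow_neg]
    exact per hZ (2 * x) (by ring)

/-- From Milnor's relations to the normalised four-generator relations. -/
theorem ofMilnor {X Y Z : H} {A B C s x y z i c r r1 r2 h h' : ℤ}
    (m1 : X * X = X * Y * (X * Y)) (m2 : X * X = Y ^ (2 * A)) (m3 : Z ^ (C * B) = 1)
    (m4 : X * Z * X⁻¹ = Z ^ r) (m5 : Y * Z * Y⁻¹ = Z⁻¹)
    (hb : x * (B * C) + y * (C * A) + z * (A * B) = 1) (hh : h * (B * C) + h' * (2 * A) = 1)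
    (hi : B = 2 * i + 1) (hc : C = 2 * c + 1) (h1 : r = -1 + C * r1) (h2 : r = 1 + B * r2)
    {T v : H} (hT : T = (Y * Y) ^ h * Z ^ h')
    (hv : v = X * (T ^ (i * (C * A) + (-c - z * s) * (A * B)))⁻¹) :
    Y * Y = T ^ (B * C) ∧ v * v = T ^ (C * A) ∧
      v⁻¹ * Y⁻¹ * T ^ s * (v⁻¹ * Y⁻¹ * T ^ s) = T ^ (A * B) ∧ T ^ (A * B * C * 2) = 1 ∧
      T ^ (2 * A) = Z := by
  have xy : X⁻¹ * Y * X = Y⁻¹ := by
    calc X⁻¹ * Y * X = (X * X)⁻¹ * (X * Y * (X * Y)) * Y⁻¹ := by group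
      _ = Y⁻¹ := by rw [← m1]; group
  have m2' : X * X = (Y * Y) ^ A := by rw [m2, zpow_mul, zpow_two]
  have xyy : X⁻¹ * (Y * Y) * X = (Y * Y)⁻¹ := by
    calc X⁻¹ * (Y * Y) * X = (X⁻¹ * Y * X) * (X⁻¹ * Y * X) := by group
      _ = _ := by rw [xy]; group
  have oY : (Y * Y) ^ (2 * A) = 1 := by
    have e1 : X⁻¹ * (Y * Y) ^ A * X = (Y * Y) ^ A := by rw [← m2']; group
    rw [← cj, xyy] at e1
    rw [two_mul, zpow_add]; nth_rewrite 1 [← e1]; rw [inv_zpow, inv_mul_cancel]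
  have yz : Y⁻¹ * Z * Y = Z⁻¹ := by
    calc Y⁻¹ * Z * Y = Y⁻¹ * (Y * Z * Y⁻¹)⁻¹⁻¹⁻¹⁻¹⁻¹ * Y := by rw [m5]; group
      _ = Z⁻¹ := by group
  have cyz : Commute (Y * Y) Z := by
    show _ = _
    calc Y * Y * Z = Y * (Y * Z * Y⁻¹) * Y := by simp [mul_assoc]
      _ = Y * Z⁻¹ * Y := by rw [m5]
      _ = (Y * Z * Y⁻¹)⁻¹ * (Y * Y) := by simp [mul_assoc]
      _ = Z * (Y * Y) := by rw [m5, inv_inv]
  have xz : X⁻¹ * Z * X = Z ^ r := by
    rw [← conj_sw (by rw [m2']; exact cyz.zpow_left _), m4]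
  have Tp : ∀ e : ℤ, T ^ e = (Y * Y) ^ (h * e) * Z ^ (h' * e) := fun e => by
    rw [hT, (cyz.zpow_zpow _ _).mul_zpow, ← zpow_mul, ← zpow_mul]
  have Gp : ∀ p q p' q' k k' : ℤ, p = p' + 2 * A * k → q = q' + C * B * k' →
      (Y * Y) ^ p * Z ^ q = (Y * Y) ^ p' * Z ^ q' := fun p q p' q' k k' e e' => by
    rw [per oY k e, per m3 k' e']
  have Gx : ∀ p q : ℤ, X⁻¹ * ((Y * Y) ^ p * Z ^ q) * X = (Y * Y) ^ (-p) * Z ^ (r * q) :=
    fun p q => by
      calc X⁻¹ * ((Y * Y) ^ p * Z ^ q) * X = (X⁻¹ * (Y * Y) * X) ^ p * (X⁻¹ * Z * X) ^ q := by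
            rw [cj, cj]; group
        _ = _ := by rw [xyy, xz, ← zpow_mul, inv_zpow']
  have Gy : ∀ p q : ℤ, Y⁻¹ * ((Y * Y) ^ p * Z ^ q) * Y = (Y * Y) ^ p * Z ^ (-q) :=
    fun p q => by
      calc Y⁻¹ * ((Y * Y) ^ p * Z ^ q) * Y = (Y⁻¹ * (Y * Y) * Y) ^ p * (Y⁻¹ * Z * Y) ^ q := by
            rw [cj, cj]; group
        _ = _ := by rw [yz, inv_zpow', show Y⁻¹ * (Y * Y) * Y = Y * Y by group]
  have hu : Y * Y = T ^ (B * C) := by
    rw [Tp, Gp _ _ 1 0 (-h') h' (by linear_combination hh) (by ring)]; simp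
  have hz : T ^ (2 * A) = Z := by
    rw [Tp, Gp _ _ 0 1 h (-h) (by ring) (by linear_combination hh)]; simp
  have hZ : T ^ (A * B * C * 2) = 1 := by
    rw [Tp, Gp _ _ 0 0 (h * B * C) (h' * A * 2) (by ring) (by ring)]; simp
  have Fx := Fconj (T := T) (g := X) (P := B * C) (Q := C * A) (R := A * B) (a := -1) (b := 1)
    (c := -1) (by rw [neg_one_mul, zpow_neg, ← hu, xyy])
    (by rw [Tp, Gx, Tp]
        exact Gp _ _ _ _ (-(h * C)) (r2 * h' * A) (by ring) (by linear_combination (h' * (C * A)) * h2))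
    (by rw [Tp, Gx, Tp]
        exact Gp _ _ _ _ 0 (r1 * h' * A) (by ring) (by linear_combination (h' * (A * B)) * h1))
  have Fy := Fconj (T := T) (g := Y) (P := B * C) (Q := C * A) (R := A * B) (a := 1) (b := -1)
    (c := -1) (by rw [one_mul, ← hu]; group)
    (by rw [Tp, Gy, Tp]; exact Gp _ _ _ _ (h * C) 0 (by ring) (by ring))
    (by rw [Tp, Gy, Tp]; exact Gp _ _ _ _ (h * B) 0 (by ring) (by ring))
  have hXX : X * X = T ^ (A * B * C) := by rw [m2', hu, ← zpow_mul]; congr 1; ring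
  have hn : (T ^ (i * (C * A) + (-c - z * s) * (A * B)))⁻¹ =
      T ^ (0 * (B * C) + (-i) * (C * A) + (c + z * s) * (A * B)) := by
    rw [← zpow_neg]; congr 1; ring
  have ht : T ^ s = T ^ ((x * s) * (B * C) + (y * s) * (C * A) + (z * s) * (A * B)) := by
    congr 1; linear_combination (-s) * hb
  rw [hn] at hv
  refine ⟨hu, ?_, ?_, hZ, hz⟩
  · have : v * v = (X * X) * (X⁻¹ * T ^ (0 * (B * C) + (-i) * (C * A) + (c + z * s) * (A * B)) * X) *
        T ^ (0 * (B * C) + (-i) * (C * A) + (c + z * s) * (A * B)) := by rw [hv]; group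
    rw [this, hXX, Fx, ← zpow_add, ← zpow_add]; congr 1; rw [hi]; ring
  · have e1 : Y * X * (Y * X) = T ^ (A * B * C) := by
      calc Y * X * (Y * X) = X⁻¹ * (X * Y * (X * Y)) * X := by group
        _ = X * X := by rw [← m1]; group
        _ = _ := hXX
    have e2 : Y * v * (Y * v) = T ^ (A * B * C + (2 * (c + z * s)) * (A * B)) := by
      have : Y * v * (Y * v) = (Y * X * (Y * X)) * (X⁻¹ * (Y⁻¹ *
          T ^ (0 * (B * C) + (-i) * (C * A) + (c + z * s) * (A * B)) * Y) * X) *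
          T ^ (0 * (B * C) + (-i) * (C * A) + (c + z * s) * (A * B)) := by rw [hv]; group
      rw [this, e1, Fy, Fx, ← zpow_add, ← zpow_add]; congr 1; ring
    have e3 : (Y * v)⁻¹ * T ^ s * (Y * v) = T ^ (s + (-(2 * x * s)) * (B * C) - (2 * y * s) * (C * A)) := by
      have : (Y * v)⁻¹ * T ^ s * (Y * v) =
          (T ^ (0 * (B * C) + (-i) * (C * A) + (c + z * s) * (A * B)))⁻¹ *
          (X⁻¹ * (Y⁻¹ * T ^ s * Y) * X) *
          T ^ (0 * (B * C) + (-i) * (C * A) + (c + z * s) * (A * B)) := by rw [hv]; group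
      rw [this, ht, Fy, Fx, ← zpow_neg, ← zpow_add, ← zpow_add]; congr 1
      linear_combination s * hb
    have e4 : v⁻¹ * Y⁻¹ * T ^ s * (v⁻¹ * Y⁻¹ * T ^ s) =
        ((Y * v)⁻¹ * T ^ s * (Y * v)) * (Y * v * (Y * v))⁻¹ * T ^ s := by group
    rw [e4, e3, e2, ← zpow_neg, ← zpow_add, ← zpow_add]
    refine per hZ (-1) ?_
    linear_combination (-(2 * s)) * hb + (A * B) * hc

/-- Splitting off a central cyclic factor. -/
theorem assemble {P G : Type*} [Group P] [Group G] (m : ℕ) (μ : P) (hμ : μ ^ (m : ℤ) = 1)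
    (hc : ∀ p, Commute μ p) (ψ : G →* P) (φ : P →* Multiplicative (ZMod m) × G)
    (h1 : φ μ = (Multiplicative.ofAdd 1, 1)) (h2 : ∀ g, φ (ψ g) = (1, g))
    (hs : ∀ S : Subgroup P, μ ∈ S → (∀ g, ψ g ∈ S) → ∀ p, p ∈ S) :
    Nonempty (P ≃* Multiplicative (ZMod m) × G) := by
  have hk : ∀ (k : ℤ) (g : G), φ (μ ^ k * ψ g) = (Multiplicative.ofAdd (k : ZMod m), g) := by
    intro k g
    rw [map_mul, map_zpow, h1, h2]
    ext
    · simp [← ofAdd_zsmul]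
    · simp
  let S : Subgroup P :=
    { carrier := {p | ∃ (k : ℤ) (g : G), p = μ ^ k * ψ g}
      one_mem' := ⟨0, 1, by simp⟩
      mul_mem' := by
        rintro _ _ ⟨k, g, rfl⟩ ⟨k', g', rfl⟩
        refine ⟨k + k', g * g', ?_⟩
        rw [map_mul, zpow_add]
        simp only [mul_assoc]
        rw [((hc (ψ g)).zpow_left k').left_comm]
      inv_mem' := by
        rintro _ ⟨k, g, rfl⟩
        refine ⟨-k, g⁻¹, ?_⟩
        rw [map_inv, mul_inv_rev, ← zpow_neg, ((hc (ψ g)⁻¹).zpow_left (-k)).eq] }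
  have hS : ∀ p, ∃ (k : ℤ) (g : G), p = μ ^ k * ψ g :=
    hs S ⟨1, 1, by simp⟩ (fun g => ⟨0, g, by simp⟩)
  refine ⟨MulEquiv.ofBijective φ ⟨?_, ?_⟩⟩
  · rw [injective_iff_map_eq_one]
    intro p hp
    obtain ⟨k, g, rfl⟩ := hS p
    rw [hk, Prod.mk_eq_one] at hp
    obtain ⟨e1, rfl⟩ := hp
    have : (k : ZMod m) = 0 := by simpa using e1
    obtain ⟨q, rfl⟩ := (ZMod.intCast_zmod_eq_zero_iff_dvd k m).1 this
    rw [zpow_mul, hμ]; simp
  · rintro ⟨a, g⟩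
    obtain ⟨k, hk'⟩ := ZMod.intCast_surjective (Multiplicative.toAdd a)
    exact ⟨μ ^ k * ψ g, by rw [hk, hk']; simp⟩

end Pool.Agent.Lib.H91PerQB
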